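import Pool.Agent.W2helper95.NN.Defs

/-!
# Three hidden layers compute the inner product of the sign bits
-/

set_option autoImplicit false

namespace Pool.Agent.W2helper95.NN

open Finset

/-- first layer: the signs of the inputs -/
def U1 (n : ℕ) : Layer n n where
  W := fun j i => if i = j then 1 else 0
  b := fun _ => 0

/-- second layer: conjunctions of the bits `i` and `n + i` -/
noncomputable def U2 (n : ℕ) : Layer (n + n) n where
  W := fun j i => if i = Fin.castAdd n j ∨ i = Fin.natAdd n j then 1 else 0
  b := fun _ => -(3 / 2)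

/-- third layer: the number of ones exceeds `k` -/
noncomputable def U3 (n : ℕ) : Layer n n where
  W := fun _ _ => 1
  b := fun k => -((k.val : ℝ) + 1 / 2)

theorem U1_out {n : ℕ} (x : Fin n → ℝ) (j : Fin n) : (U1 n).out x j = act (x j) := by
  unfold Layer.out U1
  simp

theorem U2_out {n : ℕ} (z : Fin (n + n) → ℝ) (hz : ∀ i, z i = 0 ∨ z i = 1) (j : Fin n) :
    (U2 n).out z j = if z (Fin.castAdd n j) = 1 ∧ z (Fin.natAdd n j) = 1 then 1 else 0 := by
  classical
  have h0 : ∑ i, (U2 n).W j i * z i = z (Fin.castAdd n j) + z (Fin.natAdd n j) := by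
    rw [Fin.sum_univ_add]
    congr 1
    · rw [Finset.sum_eq_single j]
      · simp [U2]
      · intro i _ hi
        have h1 : ¬ (Fin.castAdd n i = Fin.castAdd n j ∨ Fin.castAdd n i = Fin.natAdd n j) := by
          rintro (h | h)
          · exact hi (Fin.castAdd_injective n n h)
          · have := congrArg Fin.val h
            simp at this
            omega
        show (if _ then (1 : ℝ) else 0) * _ = 0
        rw [if_neg h1, zero_mul]
      · intro h
        exact absurd (Finset.mem_univ _) h
    · rw [Finset.sum_eq_single j]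
      · simp [U2]
      · intro i _ hi
        have h1 : ¬ (Fin.natAdd n i = Fin.castAdd n j ∨ Fin.natAdd n i = Fin.natAdd n j) := by
          rintro (h | h)
          · have := congrArg Fin.val h
            simp at this
            omega
          · exact hi (Fin.natAdd_injective n n h)
        show (if _ then (1 : ℝ) else 0) * _ = 0
        rw [if_neg h1, zero_mul]
      · intro h
        exact absurd (Finset.mem_univ _) h
  show act (_ + (U2 n).b j) = _
  rw [h0]
  unfold act
  refine if_congr ?_ rfl rfl
  show 0 < z (Fin.castAdd n j) + z (Fin.natAdd n j) + (-(3 / 2)) ↔ _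
  rcases hz (Fin.castAdd n j) with h1 | h1 <;> rcases hz (Fin.natAdd n j) with h2 | h2 <;>
    rw [h1, h2] <;> norm_num

theorem alt_sum (n m : ℕ) (hm : m ≤ n) :
    ∑ k : Fin n, (-1 : ℝ) ^ k.val * (if k.val < m then 1 else 0) = if Odd m then 1 else 0 := by
  rw [Fin.sum_univ_eq_sum_range (fun k => (-1 : ℝ) ^ k * (if k < m then 1 else 0)) n]
  have h1 : ∑ k ∈ range n, (-1 : ℝ) ^ k * (if k < m then 1 else 0) = ∑ k ∈ range m, (-1 : ℝ) ^ k := by
    rw [← Finset.sum_subset (Finset.range_mono hm)]
    · refine Finset.sum_congr rfl fun k hk => ?_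
      rw [if_pos (Finset.mem_range.1 hk), mul_one]
    · intro k _ hk
      rw [if_neg (by rwa [Finset.mem_range] at hk), mul_zero]
  rw [h1]
  clear h1 hm
  induction m with
  | zero => simp
  | succ m ih =>
    rw [Finset.sum_range_succ, ih]
    by_cases h : Odd m
    · rw [if_pos h, h.neg_one_pow, if_neg (by rw [Nat.not_odd_iff_even]; exact h.add_one)]
      norm_num
    · have h' := Nat.not_odd_iff_even.1 h
      rw [if_neg h, h'.neg_one_pow, if_pos h'.add_one]
      norm_num

theorem upper (n : ℕ) (x : Fin (n + n) → ℝ) :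
    ip n x = ∑ k : Fin n, (-1 : ℝ) ^ k.val *
      (U3 n).out ((U2 n).out ((U1 (n + n)).out x)) k + 0 := by
  classical
  obtain ⟨m, hm⟩ : ∃ m, m = (univ.filter fun i : Fin n =>
    0 < x (Fin.castAdd n i) ∧ 0 < x (Fin.natAdd n i)).card := ⟨_, rfl⟩
  have hmn : m ≤ n := by
    rw [hm]
    refine (Finset.card_le_univ _).trans ?_
    simp
  have h2 : ∀ j, (U2 n).out ((U1 (n + n)).out x) j =
      if 0 < x (Fin.castAdd n j) ∧ 0 < x (Fin.natAdd n j) then 1 else 0 := by
    intro j
    rw [U2_out _ (fun i => by rw [U1_out]; exact act_eq _)]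
    refine if_congr ?_ rfl rfl
    rw [U1_out, U1_out]
    unfold act
    by_cases a : 0 < x (Fin.castAdd n j) <;> by_cases b : 0 < x (Fin.natAdd n j) <;> simp [a, b]
  have h3 : ∀ k : Fin n, (U3 n).out ((U2 n).out ((U1 (n + n)).out x)) k =
      if k.val < m then 1 else 0 := by
    intro k
    show act (∑ i, (U3 n).W k i * _ + (U3 n).b k) = _
    have h4 : ∑ i, (U3 n).W k i * (U2 n).out ((U1 (n + n)).out x) i = m := by
      simp only [h2]
      rw [hm]
      simp [U3]
    rw [h4]
    unfold act
    refine if_congr ?_ rfl rfl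
    show 0 < (m : ℝ) + -((k.val : ℝ) + 1 / 2) ↔ _
    constructor
    · intro h
      have : (k.val : ℝ) < m := by linarith
      exact_mod_cast this
    · intro h
      have : (k.val : ℝ) + 1 ≤ m := by exact_mod_cast h
      linarith
  simp only [h3]
  rw [alt_sum n m hmn, add_zero]
  unfold ip
  rw [← hm]

end Pool.Agent.W2helper95.NN
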