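import Pool.Agent.W2helper95.NN.Hard
import Pool.Agent.W2helper95.NN.Upper

/-!
# Three hidden layers with about `2 ^ (N / 2)` neurons compute every function of `N` signs
-/

set_option autoImplicit false

namespace Pool.Agent.W2helper95.NN

open Finset

theorem ind_eq {n : ℕ} (p X : Fin n → Bool) :
    act (∑ i, (if p i = true then (1 : ℝ) else -1) * bt (X i) + (1 / 2 - ∑ i, bt (p i))) =
      if X = p then 1 else 0 := by
  classical
  have h1 : ∑ i, (if p i = true then (1 : ℝ) else -1) * bt (X i) + (1 / 2 - ∑ i, bt (p i)) =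
      1 / 2 - ((univ.filter fun i => X i ≠ p i).card : ℝ) := by
    rw [Finset.card_filter]
    push_cast
    have e : ∀ i, (if p i = true then (1 : ℝ) else -1) * bt (X i) =
        bt (p i) - (if X i ≠ p i then 1 else 0) := by
      intro i
      unfold bt
      cases p i <;> cases X i <;> simp
    simp only [e, Finset.sum_sub_distrib]
    ring
  rw [h1]
  unfold act
  refine if_congr ?_ rfl rfl
  constructor
  · intro h
    have h2 : ((univ.filter fun i => X i ≠ p i).card : ℝ) < 1 := by linarith
    have h3 : (univ.filter fun i => X i ≠ p i).card = 0 := by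
      have : (univ.filter fun i => X i ≠ p i).card < 1 := by exact_mod_cast h2
      omega
    rw [Finset.card_eq_zero] at h3
    funext i
    by_contra hi
    have : i ∈ (univ.filter fun i => X i ≠ p i) := Finset.mem_filter.2 ⟨Finset.mem_univ _, hi⟩
    rw [h3] at this
    exact absurd this (Finset.notMem_empty _)
  · intro h
    subst h
    simp

/-- numbering of the Boolean vectors -/
noncomputable def en (n : ℕ) : Fin (2 ^ n) ≃ (Fin n → Bool) :=
  (Fintype.equivFinOfCardEq (by simp)).symm

/-- second layer: the indicators of all values of the two halves of the input -/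
noncomputable def R2 (n : ℕ) : Layer (n + n) (2 ^ n + 2 ^ n) where
  W := Fin.append
    (fun a => Fin.append (fun i => if en n a i = true then (1 : ℝ) else -1) (fun _ => 0))
    (fun b => Fin.append (fun _ => 0) (fun i => if en n b i = true then (1 : ℝ) else -1))
  b := Fin.append (fun a => 1 / 2 - ∑ i, bt (en n a i)) (fun a => 1 / 2 - ∑ i, bt (en n a i))

/-- third layer: one neuron for each value of the first half -/
noncomputable def R3 {n : ℕ} (F : (Fin (n + n) → Bool) → Bool) : Layer (2 ^ n + 2 ^ n) (2 ^ n) where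
  W := fun a => Fin.append (fun a' => if a' = a then (1 : ℝ) else 0)
    (fun b => bt (F (Fin.append (en n a) (en n b))))
  b := fun _ => -(3 / 2)

theorem R2_left {n : ℕ} (z : Fin (n + n) → ℝ) (X : Fin n → Bool)
    (hX : ∀ i, z (Fin.castAdd n i) = bt (X i)) (a : Fin (2 ^ n)) :
    (R2 n).out z (Fin.castAdd (2 ^ n) a) = if X = en n a then 1 else 0 := by
  rw [← ind_eq (en n a) X]
  show act (∑ i, (R2 n).W (Fin.castAdd (2 ^ n) a) i * z i + (R2 n).b (Fin.castAdd (2 ^ n) a)) = _
  congr 1
  rw [Fin.sum_univ_add]
  simp only [R2, hX, Fin.append_left, Fin.append_right, zero_mul, Finset.sum_const_zero, add_zero]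

theorem R2_right {n : ℕ} (z : Fin (n + n) → ℝ) (Y : Fin n → Bool)
    (hY : ∀ i, z (Fin.natAdd n i) = bt (Y i)) (b : Fin (2 ^ n)) :
    (R2 n).out z (Fin.natAdd (2 ^ n) b) = if Y = en n b then 1 else 0 := by
  rw [← ind_eq (en n b) Y]
  show act (∑ i, (R2 n).W (Fin.natAdd (2 ^ n) b) i * z i + (R2 n).b (Fin.natAdd (2 ^ n) b)) = _
  congr 1
  rw [Fin.sum_univ_add]
  simp only [R2, hY, Fin.append_left, Fin.append_right, zero_mul, Finset.sum_const_zero, zero_add]

theorem rect (n : ℕ) (F : (Fin (n + n) → Bool) → Bool) (x : Fin (n + n) → ℝ) :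
    signFun F x = ∑ a, (1 : ℝ) * (R3 F).out ((R2 n).out ((U1 (n + n)).out x)) a := by
  classical
  obtain ⟨X, hXdef⟩ : ∃ X : Fin n → Bool, X = fun i => decide (0 < x (Fin.castAdd n i)) := ⟨_, rfl⟩
  obtain ⟨Y, hYdef⟩ : ∃ Y : Fin n → Bool, Y = fun i => decide (0 < x (Fin.natAdd n i)) := ⟨_, rfl⟩
  have hXY : (fun i => decide (0 < x i)) = Fin.append X Y := by
    funext i
    refine Fin.addCases (fun i => ?_) (fun i => ?_) i
    · rw [Fin.append_left, hXdef]
    · rw [Fin.append_right, hYdef]
  have hX : ∀ i, (U1 (n + n)).out x (Fin.castAdd n i) = bt (X i) := by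
    intro i
    rw [U1_out, hXdef]
    unfold act bt
    simp
  have hY : ∀ i, (U1 (n + n)).out x (Fin.natAdd n i) = bt (Y i) := by
    intro i
    rw [U1_out, hYdef]
    unfold act bt
    simp
  have h3 : ∀ a, (R3 F).out ((R2 n).out ((U1 (n + n)).out x)) a =
      if X = en n a ∧ F (Fin.append (en n a) Y) = true then 1 else 0 := by
    intro a
    show act (∑ i, (R3 F).W a i * (R2 n).out ((U1 (n + n)).out x) i + (R3 F).b a) = _
    rw [Fin.sum_univ_add]
    simp only [R2_left _ X hX, R2_right _ Y hY]
    have e1 : ∑ a', (R3 F).W a (Fin.castAdd (2 ^ n) a') * (if X = en n a' then (1 : ℝ) else 0) =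
        if X = en n a then 1 else 0 := by
      rw [Finset.sum_eq_single a]
      · simp only [R3, Fin.append_left]
        simp
      · intro a' _ ha
        simp only [R3, Fin.append_left]
        rw [if_neg ha, zero_mul]
      · intro h
        exact absurd (Finset.mem_univ _) h
    have e2 : ∑ b, (R3 F).W a (Fin.natAdd (2 ^ n) b) * (if Y = en n b then (1 : ℝ) else 0) =
        bt (F (Fin.append (en n a) Y)) := by
      rw [Finset.sum_eq_single ((en n).symm Y)]
      · simp only [R3, Fin.append_right]
        simp
      · intro b _ hb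
        rw [if_neg, mul_zero]
        intro h
        exact hb (by rw [h]; simp)
      · intro h
        exact absurd (Finset.mem_univ _) h
    rw [e1, e2]
    show act (_ + -(3 / 2)) = _
    unfold act
    refine if_congr ?_ rfl rfl
    unfold bt
    by_cases hx : X = en n a <;> by_cases hy : F (Fin.append (en n a) Y) = true <;>
      simp only [hx, hy, if_true, if_false, and_true, true_and, and_false, false_and] <;> norm_num
  simp only [h3, one_mul]
  rw [Finset.sum_eq_single ((en n).symm X)]
  · unfold signFun
    rw [hXY]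
    unfold bt
    simp
  · intro a _ ha
    rw [if_neg]
    rintro ⟨h, _⟩
    exact ha (by rw [h]; simp)
  · intro h
    exact absurd (Finset.mem_univ _) h

end Pool.Agent.W2helper95.NN
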