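import Pool.Agent.W2helper95.NN.Restr
import Pool.Agent.W2helper95.NN.Rect

/-!
# Hardness amplification by block parities
-/

set_option autoImplicit false

namespace Pool.Agent.W2helper95.NN

open Finset

/-- parity of a block of bits -/
def par {b : ℕ} (z : Fin b → Bool) : Bool :=
  decide (Odd (univ.filter fun j => z j = true).card)

/-- the function `h` of the parities of `m` blocks of `b` bits -/
def ampF {m b : ℕ} (h : (Fin m → Bool) → Bool) (Z : Fin (m * b) → Bool) : Bool :=
  h fun r => par fun j => Z (finProdFinEquiv (r, j))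

theorem par_ite {b : ℕ} (z : Fin b → Bool) (j0 : Fin b) (t : Bool) :
    par (fun j => if j = j0 then t else z j) =
      xor (par fun j => if j = j0 then false else z j) t := by
  classical
  cases t
  · simp
  · unfold par
    have h1 : (univ.filter fun j => (if j = j0 then true else z j) = true) =
        insert j0 (univ.filter fun j => (if j = j0 then false else z j) = true) := by
      ext j
      simp only [Finset.mem_filter, Finset.mem_univ, true_and, Finset.mem_insert]
      by_cases h : j = j0 <;> simp [h]
    have h2 : j0 ∉ (univ.filter fun j => (if j = j0 then false else z j) = true) := by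
      simp
    rw [h1, Finset.card_insert_of_notMem h2, Bool.xor_true]
    by_cases h3 : Odd (univ.filter fun j => (if j = j0 then false else z j) = true).card
    · rw [decide_eq_true h3, decide_eq_false (by rw [Nat.not_odd_iff_even]; exact h3.add_one)]
      rfl
    · rw [decide_eq_false h3, decide_eq_true ((Nat.not_odd_iff_even.1 h3).add_one)]
      rfl

theorem bt_xor (s y : Bool) : bt (xor s y) = bt s + (1 - 2 * bt s) * bt y := by
  unfold bt
  cases s <;> cases y <;> norm_num

theorem amp_lower {m b B w : ℕ} (hB : 0 < B) (hb : b = B ^ 2) (h : (Fin m → Bool) → Bool) (K : ℕ)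
    (hard : ∀ (w' : ℕ) (H' : Fin w' → (Fin m → Bool) → ℝ), (∀ j, H' j ∈ LT m) →
      (fun Z => bt (h Z)) ∈ Submodule.span ℝ (Set.range (gens H')) → 2 ^ m ≤ w' * K + 1)
    (H : Fin w → (Fin (m * b) → Bool) → ℝ) (hH : ∀ j, H j ∈ LT (m * b))
    (hmem : (fun Z => bt (ampF h Z)) ∈ Submodule.span ℝ (Set.range (gens H))) :
    B * 2 ^ m ≤ w * m * K + B := by
  classical
  choose a β hab using hH
  let e : Fin m × Fin b ≃ Fin (m * b) := finProdFinEquiv
  let H' : Fin w → (Fin m × Fin b → Bool) → ℝ := fun j Z => H j fun l => Z (e.symm l)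
  let a' : Fin w → Fin m × Fin b → ℝ := fun j q => a j (e q)
  have hH' : ∀ j Z, H' j Z = act (∑ q, a' j q * bt (Z q) + β j) := by
    intro j Z
    show H j _ = _
    rw [hab j]
    congr 2
    rw [← Equiv.sum_comp e]
    refine Finset.sum_congr rfl fun q _ => ?_
    rw [Equiv.symm_apply_apply]
  obtain ⟨Z, i, hZi⟩ := exists_restriction hB hb H' a' β hH'
  let A : Finset (Fin w) := univ.filter fun j => spread (a' j) (H' j) Z i ≠ 0
  have hA : ∑ j, spread (a' j) (H' j) Z i = A.card := by
    show _ = (((univ.filter fun j => spread (a' j) (H' j) Z i ≠ 0).card : ℕ) : ℝ)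
    rw [Finset.card_filter]
    push_cast
    refine Finset.sum_congr rfl fun j _ => ?_
    rcases spread_01 (a' j) (β j) (hH' j) Z i with h1 | h1 <;> rw [h1] <;> simp
  let shift : Fin m → Bool := fun r => par fun j => if j = i r then false else Z (r, j)
  let Φ : (Fin m → Bool) → (Fin (m * b) → Bool) := fun y l =>
    sub Z i (fun r => xor (shift r) (y r)) (e.symm l)
  have hΦ : ∀ j y, H j (Φ y) = H' j (sub Z i fun r => xor (shift r) (y r)) := fun j y => rfl
  have hF : ∀ y, ampF h (Φ y) = h y := by
    intro y
    show h _ = h y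
    congr 1
    funext r
    have e1 : (fun j => Φ y (finProdFinEquiv (r, j))) = fun j =>
        if j = i r then xor (shift r) (y r) else Z (r, j) := by
      funext j
      show sub Z i _ (e.symm (e (r, j))) = _
      rw [Equiv.symm_apply_apply]
      rfl
    rw [e1, par_ite (fun j => Z (r, j)) (i r)]
    show xor (shift r) (xor (shift r) (y r)) = y r
    cases shift r <;> cases y r <;> rfl
  let H2 : Fin A.card → (Fin m → Bool) → ℝ := fun t y => H (A.equivFin.symm t).1 (Φ y)
  have hH2 : ∀ t, H2 t ∈ LT m := by
    intro t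
    obtain ⟨j, hj⟩ : ∃ j, j = (A.equivFin.symm t).1 := ⟨_, rfl⟩
    refine ⟨fun r => a' j (r, i r) * (1 - 2 * bt (shift r)),
      ∑ r, (a' j (r, i r) * bt (shift r) +
        ∑ k, if k = i r then 0 else a' j (r, k) * bt (Z (r, k))) + β j, fun y => ?_⟩
    show H (A.equivFin.symm t).1 (Φ y) = _
    rw [← hj, hΦ, hH']
    congr 1
    rw [← add_assoc, ← Finset.sum_add_distrib]
    congr 1
    rw [Fintype.sum_prod_type]
    refine Finset.sum_congr rfl fun r _ => ?_
    have e2 : ∀ k, a' j (r, k) * bt (sub Z i (fun r => xor (shift r) (y r)) (r, k)) =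
        (if k = i r then a' j (r, i r) * bt (xor (shift r) (y r)) else 0) +
          (if k = i r then 0 else a' j (r, k) * bt (Z (r, k))) := by
      intro k
      unfold sub
      by_cases hk : k = i r
      · simp [hk]
      · simp [hk]
    simp only [e2]
    rw [Finset.sum_add_distrib, Finset.sum_ite_eq', if_pos (Finset.mem_univ _), bt_xor]
    ring
  have hspan : ∀ G ∈ Submodule.span ℝ (Set.range (gens H)),
      (fun y => G (Φ y)) ∈ Submodule.span ℝ (Set.range (gens H2)) := by
    intro G hG
    induction hG using Submodule.span_induction with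
    | mem G hG =>
      obtain ⟨o, rfl⟩ := hG
      cases o with
      | none => exact Submodule.subset_span ⟨none, rfl⟩
      | some j =>
        by_cases hj : j ∈ A
        · refine Submodule.subset_span ⟨some (A.equivFin ⟨j, hj⟩), ?_⟩
          funext y
          show H (A.equivFin.symm (A.equivFin ⟨j, hj⟩)).1 (Φ y) = H j (Φ y)
          rw [Equiv.symm_apply_apply]
        · have hj' : spread (a' j) (H' j) Z i = 0 := by
            by_contra hcon
            exact hj (Finset.mem_filter.2 ⟨Finset.mem_univ _, hcon⟩)
          have e3 : (fun y => gens H (some j) (Φ y)) =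
              (H' j (sub Z i (bot (a' j) i))) • gens H2 none := by
            funext y
            show H j (Φ y) = H' j (sub Z i (bot (a' j) i)) * 1
            rw [mul_one, hΦ]
            exact spread_zero (a' j) (β j) (hH' j) Z i hj' _
          rw [e3]
          exact Submodule.smul_mem _ _ (Submodule.subset_span ⟨none, rfl⟩)
    | zero => exact Submodule.zero_mem _
    | add G G' _ _ h1 h2 => exact Submodule.add_mem _ h1 h2
    | smul c G _ h1 => exact Submodule.smul_mem _ c h1
  have hfin := hspan _ hmem
  simp only [hF] at hfin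
  have h1 := hard A.card H2 hH2 hfin
  rw [hA] at hZi
  have h2 : B * A.card ≤ w * m := by exact_mod_cast hZi
  calc B * 2 ^ m ≤ B * (A.card * K + 1) := Nat.mul_le_mul_left _ h1
    _ = B * A.card * K + B := by ring
    _ ≤ w * m * K + B := by
      have := Nat.mul_le_mul_right K h2
      omega

/-- feeding a layer with linear combinations of its inputs -/
def Layer.comp {m' n' M : ℕ} (L : Layer m' n') (T : Fin m' → Fin M → ℝ) : Layer M n' where
  W := fun j l => ∑ r, L.W j r * T r l
  b := L.b

theorem comp_out {m' n' M : ℕ} (L : Layer m' n') (T : Fin m' → Fin M → ℝ) (z : Fin M → ℝ) :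
    (L.comp T).out z = L.out fun r => ∑ l, T r l * z l := by
  funext j
  show act (∑ l, (∑ r, L.W j r * T r l) * z l + L.b j) =
    act (∑ r, L.W j r * (∑ l, T r l * z l) + L.b j)
  congr 2
  simp only [Finset.sum_mul, Finset.mul_sum]
  rw [Finset.sum_comm]
  refine Finset.sum_congr rfl fun r _ => Finset.sum_congr rfl fun l _ => ?_
  ring

/-- counting layer: neuron `(r, k)` fires if block `r` has more than `k` ones -/
noncomputable def C2 (m b : ℕ) : Layer (m * b) (m * b) where
  W := fun l l' => if (finProdFinEquiv.symm l : Fin m × Fin b).1 =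
    (finProdFinEquiv.symm l' : Fin m × Fin b).1 then 1 else 0
  b := fun l => -(((finProdFinEquiv.symm l : Fin m × Fin b).2.val : ℝ) + 1 / 2)

/-- alternating sums inside the blocks -/
noncomputable def T2 (m b : ℕ) : Fin m → Fin (m * b) → ℝ := fun r l =>
  if (finProdFinEquiv.symm l : Fin m × Fin b).1 = r then
    (-1) ^ (finProdFinEquiv.symm l : Fin m × Fin b).2.val else 0

theorem C2_out {m b : ℕ} (Z : Fin (m * b) → Bool) (r : Fin m) (k : Fin b) :
    (C2 m b).out (fun l => bt (Z l)) (finProdFinEquiv (r, k)) =
      if k.val < (univ.filter fun j : Fin b => Z (finProdFinEquiv (r, j)) = true).card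
      then 1 else 0 := by
  classical
  show act (∑ l', (C2 m b).W (finProdFinEquiv (r, k)) l' * bt (Z l') +
    (C2 m b).b (finProdFinEquiv (r, k))) = _
  have e1 : ∑ l', (C2 m b).W (finProdFinEquiv (r, k)) l' * bt (Z l') =
      ((univ.filter fun j : Fin b => Z (finProdFinEquiv (r, j)) = true).card : ℝ) := by
    rw [← Equiv.sum_comp (finProdFinEquiv : Fin m × Fin b ≃ Fin (m * b)), Fintype.sum_prod_type]
    rw [Finset.sum_eq_single r]
    · rw [Finset.card_filter]
      push_cast
      refine Finset.sum_congr rfl fun j _ => ?_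
      show (if _ then (1 : ℝ) else 0) * _ = _
      rw [Equiv.symm_apply_apply, Equiv.symm_apply_apply, if_pos rfl, one_mul]
      rfl
    · intro r' _ hr
      refine Finset.sum_eq_zero fun j _ => ?_
      show (if _ then (1 : ℝ) else 0) * _ = _
      rw [Equiv.symm_apply_apply, Equiv.symm_apply_apply, if_neg (fun h => hr h.symm), zero_mul]
    · intro h
      exact absurd (Finset.mem_univ _) h
  rw [e1]
  have e2 : (C2 m b).b (finProdFinEquiv (r, k)) = -((k.val : ℝ) + 1 / 2) := by
    show -(((finProdFinEquiv.symm (finProdFinEquiv (r, k)) : Fin m × Fin b).2.val : ℝ) + 1 / 2) = _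
    rw [Equiv.symm_apply_apply]
  rw [e2]
  unfold act
  refine if_congr ?_ rfl rfl
  constructor
  · intro h
    have : (k.val : ℝ) <
        ((univ.filter fun j : Fin b => Z (finProdFinEquiv (r, j)) = true).card : ℝ) := by linarith
    exact_mod_cast this
  · intro h
    have : (k.val : ℝ) + 1 ≤
        ((univ.filter fun j : Fin b => Z (finProdFinEquiv (r, j)) = true).card : ℝ) := by
      exact_mod_cast h
    linarith

theorem par_out {m b : ℕ} (Z : Fin (m * b) → Bool) (r : Fin m) :
    ∑ l, T2 m b r l * (C2 m b).out (fun l => bt (Z l)) l =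
      bt (par fun j => Z (finProdFinEquiv (r, j))) := by
  classical
  rw [← Equiv.sum_comp (finProdFinEquiv : Fin m × Fin b ≃ Fin (m * b)), Fintype.sum_prod_type]
  rw [Finset.sum_eq_single r]
  · have e1 : ∀ k : Fin b, T2 m b r (finProdFinEquiv (r, k)) = (-1) ^ k.val := by
      intro k
      unfold T2
      rw [Equiv.symm_apply_apply, if_pos rfl]
    simp only [e1, C2_out]
    rw [alt_sum b _ (by
      refine (Finset.card_le_univ _).trans ?_
      rw [Fintype.card_fin])]
    unfold par bt
    simp
  · intro r' _ hr
    refine Finset.sum_eq_zero fun j _ => ?_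
    unfold T2
    rw [Equiv.symm_apply_apply, if_neg hr, zero_mul]
  · intro h
    exact absurd (Finset.mem_univ _) h

theorem rect_bits (p : ℕ) (h : (Fin (p + p) → Bool) → Bool) (X : Fin (p + p) → Bool) :
    bt (h X) = ∑ a, (1 : ℝ) * (R3 h).out ((R2 p).out fun i => bt (X i)) a := by
  have h1 := rect p h fun i => bt (X i)
  have h2 : signFun h (fun i => bt (X i)) = bt (h X) := by
    unfold signFun
    congr 2
    funext i
    show decide (0 < bt (X i)) = X i
    unfold bt
    cases hx : X i <;> simp
  have h3 : (U1 (p + p)).out (fun i => bt (X i)) = fun i => bt (X i) := by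
    funext i
    rw [U1_out]
    unfold act bt
    cases hx : X i <;> simp
  rw [h2, h3] at h1
  exact h1

theorem amp_upper (p b : ℕ) (h : (Fin (p + p) → Bool) → Bool) (x : Fin ((p + p) * b) → ℝ) :
    signFun (ampF h) x = ∑ a, (1 : ℝ) * (R3 h).out (((R2 p).comp (T2 (p + p) b)).out
      ((C2 (p + p) b).out ((U1 ((p + p) * b)).out x))) a := by
  obtain ⟨Z, hZ⟩ : ∃ Z : Fin ((p + p) * b) → Bool, Z = fun l => decide (0 < x l) := ⟨_, rfl⟩
  have h1 : (U1 ((p + p) * b)).out x = fun l => bt (Z l) := by
    funext l
    rw [U1_out, hZ]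
    unfold act bt
    simp
  rw [h1, comp_out]
  simp only [par_out]
  rw [← rect_bits]
  unfold signFun ampF
  rw [hZ]

end Pool.Agent.W2helper95.NN
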