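import Pool.Agent.W2helper95.NN.Amp

/-!
# The gap for all parameters
-/

set_option autoImplicit false

namespace Pool.Agent.W2helper95.NN

open Finset

theorem amp_all (p B : ℕ) (hp : 1 ≤ p) (hB : 1 ≤ B) :
    ∃ F : (Fin ((p + p) * B ^ 2) → Bool) → Bool,
      (∃ (L1 : Layer ((p + p) * B ^ 2) ((p + p) * B ^ 2))
        (L2 : Layer ((p + p) * B ^ 2) ((p + p) * B ^ 2))
        (L3 : Layer ((p + p) * B ^ 2) (2 ^ p + 2 ^ p)) (L4 : Layer (2 ^ p + 2 ^ p) (2 ^ p))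
        (c : Fin (2 ^ p) → ℝ) (d : ℝ),
        ∀ x, signFun F x = ∑ a, c a * L4.out (L3.out (L2.out (L1.out x))) a + d) ∧
      (∀ (w : ℕ) (L : Layer ((p + p) * B ^ 2) w) (c : Fin w → ℝ) (d : ℝ),
        (∀ x, signFun F x = ∑ j, c j * L.out x j + d) →
        B * 4 ^ p ≤ w * (2 * p * ((2 * p + 1) ^ 2 + 1)) + B) ∧
      (∀ (w₁ w₂ : ℕ) (L1 : Layer ((p + p) * B ^ 2) w₁) (L2 : Layer w₁ w₂)
        (c : Fin w₂ → ℝ) (d : ℝ), (∀ x, signFun F x = ∑ j, c j * L2.out (L1.out x) j + d) →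
        B * 4 ^ p ≤ w₂ * (2 * p * ((2 * p + 1) ^ 2 + 1)) + B) := by
  obtain ⟨h, hh⟩ := exists_hard (p + p)
  have hpos : 0 < (p + p) * B ^ 2 := by positivity
  have h4 : (2 : ℕ) ^ (p + p) = 4 ^ p := by
    rw [← two_mul, pow_mul]
    norm_num
  have key : ∀ (w : ℕ) (H : Fin w → (Fin ((p + p) * B ^ 2) → Bool) → ℝ),
      (∀ j, H j ∈ NN.LT ((p + p) * B ^ 2)) →
      (fun Z => bt (ampF h Z)) ∈ Submodule.span ℝ (Set.range (gens H)) →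
      B * 4 ^ p ≤ w * (2 * p * ((2 * p + 1) ^ 2 + 1)) + B := by
    intro w H h1 h2
    have h3 := amp_lower hB rfl h ((p + p + 1) * (p + p + 1) + 1) hh H h1 h2
    rw [h4] at h3
    refine h3.trans (le_of_eq ?_)
    ring
  refine ⟨ampF h, ⟨U1 _, C2 _ _, (R2 p).comp (T2 (p + p) (B ^ 2)), R3 h, fun _ => 1, 0,
    fun x => ?_⟩, ?_, ?_⟩
  · rw [add_zero]
    exact amp_upper p (B ^ 2) h x
  · intro w L c d hf
    obtain ⟨H, h1, h2⟩ := one_layer_rep hpos (ampF h) L c d hf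
    exact key w H h1 h2
  · intro w₁ w₂ L1 L2 c d hf
    obtain ⟨H, h1, h2⟩ := two_layer_rep hpos (ampF h) L1 L2 c d hf
    exact key w₂ H h1 h2

/-- the bound in terms of the size of the deep network -/
theorem amp_num (q w : ℕ)
    (hw : 2 ^ q * 4 ^ (2 * q) ≤ w * (2 * (2 * q) * ((2 * (2 * q) + 1) ^ 2 + 1)) + 2 ^ q) :
    32 ^ q ≤ w * (4 * q * ((4 * q + 1) ^ 2 + 1)) + 2 ^ q ∧
    ((8 * q + 3) * 4 ^ q) ^ 5 ≤
      (8 * q + 3) ^ 5 * (w * (4 * q * ((4 * q + 1) ^ 2 + 1)) + 2 ^ q) ^ 2 := by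
  have e4 : (4 : ℕ) ^ (2 * q) = 16 ^ q := by
    rw [pow_mul]
    norm_num
  have e5 : (2 : ℕ) ^ q * 4 ^ (2 * q) = 32 ^ q := by
    rw [e4, ← mul_pow]
    norm_num
  have e6 : ((4 : ℕ) ^ q) ^ 5 = (32 ^ q) ^ 2 := by
    rw [← pow_mul, ← pow_mul, mul_comm q 5, mul_comm q 2, pow_mul, pow_mul]
    norm_num
  have e7 : w * (2 * (2 * q) * ((2 * (2 * q) + 1) ^ 2 + 1)) + 2 ^ q =
      w * (4 * q * ((4 * q + 1) ^ 2 + 1)) + 2 ^ q := by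
    ring
  rw [e5, e7] at hw
  refine ⟨hw, ?_⟩
  rw [mul_pow, e6]
  exact Nat.mul_le_mul_left _ (Nat.pow_le_pow_left hw 2)

end Pool.Agent.W2helper95.NN
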