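import Pool.Agent.W2helper95.NN.Lower
import Pool.Agent.W2helper95.NN.Upper

/-!
# Restricted second layers
-/

set_option autoImplicit false

namespace Pool.Agent.W2helper95.NN

open Finset

theorem sums_card_int {w : ℕ} (a : Fin w → ℝ) (B : ℕ)
    (h : ∀ i, ∃ z : ℤ, |z| ≤ B ∧ a i = z) : (sums a).card ≤ 2 * B * w + 1 := by
  classical
  choose z hz ha using h
  have h1 : sums a ⊆ (Finset.Icc (-(B * w : ℤ)) (B * w)).image (fun t : ℤ => (t : ℝ)) := by
    intro r hr
    unfold sums at hr
    obtain ⟨I, _, rfl⟩ := Finset.mem_image.1 hr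
    rw [Finset.mem_image]
    refine ⟨∑ i ∈ I, z i, ?_, ?_⟩
    · have h2 : |∑ i ∈ I, z i| ≤ B * w := by
        refine (Finset.abs_sum_le_sum_abs _ _).trans ?_
        refine (Finset.sum_le_card_nsmul I _ (B : ℤ) fun i _ => hz i).trans ?_
        have h3 : (I.card : ℤ) ≤ w := by
          have := Finset.card_le_univ I
          rw [Fintype.card_fin] at this
          exact_mod_cast this
        rw [nsmul_eq_mul]
        have h4 : (0 : ℤ) ≤ B := Int.natCast_nonneg _
        nlinarith
      rw [Finset.mem_Icc]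
      exact abs_le.1 h2
    · push_cast
      exact Finset.sum_congr rfl fun i _ => (ha i).symm
  refine (Finset.card_le_card h1).trans (Finset.card_image_le.trans ?_)
  rw [Int.card_Icc]
  have : (B * w : ℤ) + 1 - -(B * w : ℤ) = ((2 * B * w + 1 : ℕ) : ℤ) := by
    push_cast
    ring
  rw [this]
  simp

theorem sums_card_few {w : ℕ} (a : Fin w → ℝ) (r : ℕ) (h : (univ.image a).card ≤ r) :
    (sums a).card ≤ (w + 1) ^ r := by
  classical
  have h1 : sums a ⊆ (univ : Finset ({v // v ∈ univ.image a} → Fin (w + 1))).image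
      (fun φ => ∑ v, (φ v : ℝ) * v.1) := by
    intro s hs
    unfold sums at hs
    obtain ⟨I, _, rfl⟩ := Finset.mem_image.1 hs
    rw [Finset.mem_image]
    refine ⟨fun v => ⟨(I.filter fun i => a i = v.1).card, ?_⟩, Finset.mem_univ _, ?_⟩
    · have := Finset.card_le_univ (I.filter fun i => a i = v.1)
      rw [Fintype.card_fin] at this
      omega
    · have h2 : ∀ i ∈ I, a i ∈ univ.image a := fun i _ =>
        Finset.mem_image_of_mem _ (Finset.mem_univ i)
      rw [← Finset.sum_fiberwise_of_maps_to h2]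
      rw [← Finset.sum_coe_sort (univ.image a)]
      refine Finset.sum_congr rfl fun v _ => ?_
      have h3 : ∑ i ∈ I with a i = v.1, a i = ∑ i ∈ I with a i = v.1, v.1 :=
        Finset.sum_congr rfl fun i hi => (Finset.mem_filter.1 hi).2
      rw [h3, Finset.sum_const, nsmul_eq_mul]
  refine (Finset.card_le_card h1).trans (Finset.card_image_le.trans ?_)
  rw [Finset.card_univ, Fintype.card_fun, Fintype.card_fin, Fintype.card_coe]
  exact Nat.pow_le_pow_right (by omega) h

theorem restricted (n : ℕ) (hn : 1 ≤ n) (B r : ℕ) (hB : 1 ≤ B) (hr : 1 ≤ r) {w1 w2 : ℕ}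
    (L1 : Layer (n + n) w1) (L2 : Layer w1 w2)
    (c : Fin w2 → ℝ) (d : ℝ) (hf : ∀ x, ip n x = ∑ j, c j * L2.out (L1.out x) j + d)
    (hres : ∀ j, |c j| ≤ B ∨ (∀ i, ∃ z : ℤ, |z| ≤ B ∧ L2.W j i = z) ∨
      (univ.image (L2.W j)).card ≤ r) :
    Real.sqrt (2 ^ n) ≤ 4 * (n + 1) * (B * w2 * (w1 + 1) ^ r) := by
  classical
  have hw : w1 + 1 ≤ (w1 + 1) ^ r := Nat.le_self_pow (by omega) _
  have hw1 : 1 ≤ (w1 + 1) ^ r := Nat.one_le_pow _ _ (by omega)
  have hn0 : (0 : ℝ) ≤ n := Nat.cast_nonneg _
  have hP0 : (0 : ℝ) ≤ B * w2 * (w1 + 1) ^ r := by positivity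
  rcases lower n hn L1 L2 c d hf (univ.filter fun j => ¬ |c j| ≤ B) with h | h
  · have h1 : ∀ j ∈ univ.filter (fun j => ¬ |c j| ≤ B), (sums (L2.W j)).card ≤
        2 * B * (w1 + 1) ^ r := by
      intro j hj
      rcases hres j with h2 | h2 | h2
      · exact absurd h2 (Finset.mem_filter.1 hj).2
      · refine (sums_card_int _ B h2).trans ?_
        calc 2 * B * w1 + 1 ≤ 2 * B * (w1 + 1) := by nlinarith
          _ ≤ 2 * B * (w1 + 1) ^ r := Nat.mul_le_mul_left _ hw
      · refine (sums_card_few _ r h2).trans ?_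
        calc (w1 + 1) ^ r = 1 * (w1 + 1) ^ r := (one_mul _).symm
          _ ≤ 2 * B * (w1 + 1) ^ r := Nat.mul_le_mul_right _ (by omega)
    have h2 : 2 ^ (n - 1) ≤ w2 * (2 * B * (w1 + 1) ^ r) := by
      refine h.trans ((Finset.sum_le_card_nsmul _ _ _ h1).trans ?_)
      rw [smul_eq_mul]
      refine Nat.mul_le_mul_right _ ?_
      refine (Finset.card_le_univ _).trans ?_
      rw [Fintype.card_fin]
    have h3 : (2 : ℝ) ^ (n - 1) ≤ w2 * (2 * B * (w1 + 1) ^ r) := by exact_mod_cast h2
    have h4 : (2 : ℝ) ^ n = 2 * 2 ^ (n - 1) := by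
      rw [← pow_succ']
      congr 1
      omega
    have h5 : (1 : ℝ) ≤ 2 ^ n := one_le_pow₀ (by norm_num)
    have h6 : Real.sqrt (2 ^ n) ≤ 2 ^ n := by
      rw [Real.sqrt_le_left (by positivity)]
      nlinarith
    nlinarith
  · refine h.trans ?_
    have h1 : ∑ j ∈ univ \ (univ.filter fun j => ¬ |c j| ≤ B), |c j| ≤ w2 * B := by
      have h2 : ∀ j ∈ univ \ (univ.filter fun j => ¬ |c j| ≤ B), |c j| ≤ B := by
        intro j hj
        by_contra h3
        exact (Finset.mem_sdiff.1 hj).2 (Finset.mem_filter.2 ⟨Finset.mem_univ _, h3⟩)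
      refine (Finset.sum_le_card_nsmul _ _ _ h2).trans ?_
      rw [nsmul_eq_mul]
      refine mul_le_mul_of_nonneg_right ?_ (Nat.cast_nonneg _)
      have := Finset.card_le_univ (univ \ (univ.filter fun j => ¬ |c j| ≤ B))
      rw [Fintype.card_fin] at this
      exact_mod_cast this
    have h2 : (w2 : ℝ) * B ≤ B * w2 * (w1 + 1) ^ r := by
      have h3 : (1 : ℝ) ≤ (w1 + 1) ^ r := by exact_mod_cast hw1
      have h4 : (0 : ℝ) ≤ B * w2 := by positivity
      nlinarith
    exact mul_le_mul_of_nonneg_left (h1.trans h2) (by positivity)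

/-- One hidden layer never suffices. -/
theorem one_layer (n : ℕ) (hn : 1 ≤ n) {w : ℕ} (L : Layer (n + n) w) (c : Fin w → ℝ) (d : ℝ) :
    ¬ ∀ x, ip n x = ∑ j, c j * L.out x j + d := by
  classical
  intro hf
  obtain ⟨ε, hε, l, hl⟩ := local_points (by omega : 0 < n + n) L
  let i0 : Fin n := ⟨0, hn⟩
  let E : Bool → (Fin n → Bool) := fun b i => if i = i0 then b else false
  let Z : Bool → Bool → (Fin (n + n) → Bool) := fun b b' => Fin.append (E b) (E b')
  have hZ : ∀ b b', ip n (pt ε (Z b b')) = if b = true ∧ b' = true then 1 else 0 := by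
    intro b b'
    show ip n (pt ε (Fin.append (E b) (E b'))) = _
    rw [ip_pt hε]
    have : chi (E b) (E b') = if b = true ∧ b' = true then -1 else 1 := by
      unfold chi
      rw [Finset.prod_eq_single i0]
      · simp [E]
      · intro i _ hi
        simp [E, hi]
      · intro h
        exact absurd (Finset.mem_univ _) h
    rw [this]
    split_ifs <;> norm_num
  have hmix : ∀ j, L.out (pt ε (Z true true)) j - L.out (pt ε (Z true false)) j -
      L.out (pt ε (Z false true)) j + L.out (pt ε (Z false false)) j = 0 := by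
    intro j
    by_cases h : (l j).val < n
    · have e : l j = Fin.castAdd n ⟨(l j).val, h⟩ := by
        apply Fin.ext
        simp
      have h1 : ∀ b, L.out (pt ε (Z b true)) j = L.out (pt ε (Z b false)) j := by
        intro b
        refine hl j _ _ ?_
        show Fin.append (E b) (E true) (l j) = Fin.append (E b) (E false) (l j)
        rw [e, Fin.append_left, Fin.append_left]
      rw [h1, h1]
      ring
    · have e : l j = Fin.natAdd n ⟨(l j).val - n, by omega⟩ := by
        apply Fin.ext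
        simp
        omega
      have h1 : ∀ b', L.out (pt ε (Z true b')) j = L.out (pt ε (Z false b')) j := by
        intro b'
        refine hl j _ _ ?_
        show Fin.append (E true) (E b') (l j) = Fin.append (E false) (E b') (l j)
        rw [e, Fin.append_right, Fin.append_right]
      rw [h1, h1]
      ring
  have hsum : ip n (pt ε (Z true true)) - ip n (pt ε (Z true false)) -
      ip n (pt ε (Z false true)) + ip n (pt ε (Z false false)) = 0 := by
    rw [hf, hf, hf, hf]
    have : ∑ j, c j * (L.out (pt ε (Z true true)) j - L.out (pt ε (Z true false)) j -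
      L.out (pt ε (Z false true)) j + L.out (pt ε (Z false false)) j) = 0 := by
      refine Finset.sum_eq_zero fun j _ => ?_
      rw [hmix j, mul_zero]
    simp only [mul_add, mul_sub, Finset.sum_add_distrib, Finset.sum_sub_distrib] at this
    linarith
  rw [hZ, hZ, hZ, hZ] at hsum
  simp at hsum

end Pool.Agent.W2helper95.NN
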