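import Pool.Agent.W2helper95.NN.Local

/-!
# Counting: most Boolean functions need many linear threshold functions
-/

set_option autoImplicit false

namespace Pool.Agent.W2helper95.NN

open Finset

/-- a bit as a real number -/
def bt (b : Bool) : ℝ := if b = true then 1 else 0

/-- linear threshold functions of `N` bits -/
def LT (N : ℕ) : Set ((Fin N → Bool) → ℝ) :=
  {h | ∃ (a : Fin N → ℝ) (b : ℝ), ∀ Z, h Z = act (∑ l, a l * bt (Z l) + b)}

/-- two threshold functions with the same Chow parameters are equal: one half -/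
theorem chow_half {N : ℕ} {h h' : (Fin N → Bool) → ℝ} (a : Fin N → ℝ) (b : ℝ)
    (hh : ∀ Z, h Z = act (∑ l, a l * bt (Z l) + b)) (hh' : ∀ Z, h' Z = 0 ∨ h' Z = 1)
    (h0 : ∑ Z, h Z = ∑ Z, h' Z) (h1 : ∀ l, ∑ Z, h Z * bt (Z l) = ∑ Z, h' Z * bt (Z l)) :
    ∀ Z, h Z = 1 → h' Z = 1 := by
  classical
  have hsum : ∑ Z, (h Z - h' Z) * (∑ l, a l * bt (Z l) + b) = 0 := by
    have e : ∀ Z, (h Z - h' Z) * (∑ l, a l * bt (Z l) + b) =
        ∑ l, a l * (h Z * bt (Z l) - h' Z * bt (Z l)) + b * (h Z - h' Z) := by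
      intro Z
      rw [mul_add, Finset.mul_sum]
      congr 1
      · refine Finset.sum_congr rfl fun l _ => ?_
        ring
      · ring
    simp only [e, Finset.sum_add_distrib]
    rw [Finset.sum_comm]
    have e1 : ∀ l, ∑ Z : Fin N → Bool, a l * (h Z * bt (Z l) - h' Z * bt (Z l)) = 0 := by
      intro l
      rw [← Finset.mul_sum, Finset.sum_sub_distrib, h1 l, sub_self, mul_zero]
    simp only [e1]
    rw [← Finset.mul_sum, Finset.sum_sub_distrib, h0]
    simp
  have hnn : ∀ Z ∈ (univ : Finset (Fin N → Bool)),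
      0 ≤ (h Z - h' Z) * (∑ l, a l * bt (Z l) + b) := by
    intro Z _
    rw [hh Z]
    unfold act
    split_ifs with hp
    · refine mul_nonneg ?_ hp.le
      rcases hh' Z with h2 | h2 <;> rw [h2] <;> norm_num
    · have hp' := not_lt.1 hp
      rcases hh' Z with h2 | h2 <;> rw [h2] <;> nlinarith
  intro Z hZ
  have hz := (Finset.sum_eq_zero_iff_of_nonneg hnn).1 hsum Z (Finset.mem_univ Z)
  have hp : 0 < ∑ l, a l * bt (Z l) + b := by
    by_contra hcon
    rw [hh Z] at hZ
    unfold act at hZ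
    rw [if_neg hcon] at hZ
    norm_num at hZ
  rcases mul_eq_zero.1 hz with h3 | h3
  · rw [← hZ]
    linarith
  · exact absurd h3 hp.ne'

theorem LT_01 {N : ℕ} {h : (Fin N → Bool) → ℝ} (hh : h ∈ LT N) (Z : Fin N → Bool) :
    h Z = 0 ∨ h Z = 1 := by
  obtain ⟨a, b, hab⟩ := hh
  rw [hab Z]
  exact act_eq _

/-- the Chow parameters as natural numbers -/
noncomputable def chow {N : ℕ} (h : (Fin N → Bool) → ℝ) : Option (Fin N) → ℕ := fun o =>
  match o with
  | none => (univ.filter fun Z => h Z = 1).card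
  | some l => (univ.filter fun Z => h Z = 1 ∧ Z l = true).card

theorem chow_none {N : ℕ} {h : (Fin N → Bool) → ℝ} (hh : ∀ Z, h Z = 0 ∨ h Z = 1) :
    ∑ Z, h Z = (chow h none : ℝ) := by
  classical
  show _ = (((univ.filter fun Z => h Z = 1).card : ℕ) : ℝ)
  rw [Finset.card_filter]
  push_cast
  refine Finset.sum_congr rfl fun Z _ => ?_
  rcases hh Z with h1 | h1 <;> rw [h1] <;> simp

theorem chow_some {N : ℕ} {h : (Fin N → Bool) → ℝ} (hh : ∀ Z, h Z = 0 ∨ h Z = 1) (l : Fin N) :
    ∑ Z, h Z * bt (Z l) = (chow h (some l) : ℝ) := by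
  classical
  show _ = (((univ.filter fun Z => h Z = 1 ∧ Z l = true).card : ℕ) : ℝ)
  rw [Finset.card_filter]
  push_cast
  refine Finset.sum_congr rfl fun Z _ => ?_
  unfold bt
  rcases hh Z with h1 | h1 <;> rw [h1] <;> by_cases h2 : Z l = true <;> simp [h2]

theorem chow_inj {N : ℕ} : Set.InjOn (chow (N := N)) (LT N) := by
  intro h hh h' hh' heq
  have a1 := LT_01 hh
  have a2 := LT_01 hh'
  have e0 : ∑ Z, h Z = ∑ Z, h' Z := by rw [chow_none a1, chow_none a2, heq]
  have e1 : ∀ l, ∑ Z, h Z * bt (Z l) = ∑ Z, h' Z * bt (Z l) := fun l => by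
    rw [chow_some a1, chow_some a2, heq]
  obtain ⟨a, b, hab⟩ := hh
  obtain ⟨a', b', hab'⟩ := hh'
  have k1 := chow_half a b hab a2 e0 e1
  have k2 := chow_half a' b' hab' a1 e0.symm fun l => (e1 l).symm
  funext Z
  rcases a1 Z with h1 | h1
  · rcases a2 Z with h2 | h2
    · rw [h1, h2]
    · rw [k2 Z h2, h2]
  · rw [h1, k1 Z h1]

/-- the set of Chow parameters -/
theorem LT_finite (N : ℕ) : (LT N).Finite ∧ (LT N).ncard ≤ 2 ^ ((N + 1) * (N + 1)) := by
  classical
  let T : Finset (Option (Fin N) → ℕ) := Fintype.piFinset fun _ => Finset.range (2 ^ N + 1)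
  have hmaps : ∀ h ∈ LT N, chow h ∈ (T : Set (Option (Fin N) → ℕ)) := by
    intro h _
    rw [Finset.mem_coe, Fintype.mem_piFinset]
    intro o
    rw [Finset.mem_range]
    have hc : Fintype.card (Fin N → Bool) = 2 ^ N := by simp
    cases o with
    | none =>
      show (univ.filter fun Z => h Z = 1).card < _
      have := Finset.card_le_univ (univ.filter fun Z => h Z = 1)
      rw [hc] at this
      omega
    | some l =>
      show (univ.filter fun Z => h Z = 1 ∧ Z l = true).card < _
      have := Finset.card_le_univ (univ.filter fun Z => h Z = 1 ∧ Z l = true)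
      rw [hc] at this
      omega
  have hfin : (LT N).Finite := Set.Finite.of_injOn hmaps chow_inj T.finite_toSet
  refine ⟨hfin, ?_⟩
  have h1 := Set.ncard_le_ncard_of_injOn (s := LT N) (t := (T : Set (Option (Fin N) → ℕ)))
    chow hmaps chow_inj T.finite_toSet
  refine h1.trans ?_
  rw [Set.ncard_coe_finset, Fintype.card_piFinset]
  simp only [Finset.card_range, Finset.prod_const, Finset.card_univ, Fintype.card_option,
    Fintype.card_fin]
  rw [pow_mul]
  refine Nat.pow_le_pow_left ?_ _
  rw [pow_succ]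
  have : 1 ≤ 2 ^ N := Nat.one_le_two_pow
  omega

/-- A subspace of dimension `D` contains at most `2 ^ D` vectors with entries `0, 1`. -/
theorem few_boolean {Q : Type} [Fintype Q] [DecidableEq Q] (V : Submodule ℝ (Q → ℝ)) (D : ℕ)
    (hD : Module.finrank ℝ V ≤ D) (S : Finset (Q → Bool))
    (hS : ∀ F ∈ S, (fun q => bt (F q)) ∈ V) : S.card ≤ 2 ^ D := by
  classical
  let v : Q → Module.Dual ℝ V := fun q => (LinearMap.proj q).comp V.subtype
  obtain ⟨κ, a, ha, hspan, hli⟩ := exists_linearIndependent' ℝ v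
  haveI : Finite κ := Finite.of_injective a ha
  haveI : Fintype κ := Fintype.ofFinite κ
  have hκ : Fintype.card κ ≤ D := by
    have h1 := hli.fintype_card_le_finrank
    rw [Subspace.dual_finrank_eq] at h1
    exact h1.trans hD
  have hinj : Set.InjOn (fun (F : Q → Bool) (k : κ) => F (a k)) (S : Set (Q → Bool)) := by
    intro F hF F' hF' heq
    have hV : (fun q => bt (F q)) - (fun q => bt (F' q)) ∈ V := V.sub_mem (hS F hF) (hS F' hF')
    let z : V := ⟨_, hV⟩
    have hz : ∀ φ ∈ Submodule.span ℝ (Set.range v), φ z = 0 := by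
      intro φ hφ
      rw [← hspan] at hφ
      induction hφ using Submodule.span_induction with
      | mem φ hφ =>
        obtain ⟨k, rfl⟩ := hφ
        show bt (F (a k)) - bt (F' (a k)) = 0
        have : F (a k) = F' (a k) := congrFun heq k
        rw [this, sub_self]
      | zero => simp
      | add φ ψ _ _ h1 h2 => rw [LinearMap.add_apply, h1, h2, add_zero]
      | smul c φ _ h1 => rw [LinearMap.smul_apply, h1, smul_zero]
    funext q
    have h2 := hz (v q) (Submodule.subset_span ⟨q, rfl⟩)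
    have h3 : bt (F q) - bt (F' q) = 0 := h2
    unfold bt at h3
    cases h4 : F q <;> cases h5 : F' q <;> simp_all
  have h6 : S.card ≤ (univ : Finset (κ → Bool)).card :=
    Finset.card_le_card_of_injOn _ (fun _ _ => Finset.mem_coe.2 (Finset.mem_univ _)) hinj
  refine h6.trans ?_
  rw [Finset.card_univ, Fintype.card_fun, Fintype.card_bool]
  exact Nat.pow_le_pow_right (by norm_num) hκ

end Pool.Agent.W2helper95.NN
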