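import Mathlib

/-!
# Linear threshold networks
-/

set_option autoImplicit false

namespace Pool.Agent.W2helper95.NN

open Finset

/-- The activation: `1` on the positive reals, `0` elsewhere. -/
noncomputable def act (t : ℝ) : ℝ := if 0 < t then 1 else 0

/-- A hidden layer with `m` inputs and `n` neurons: weights and biases. -/
structure Layer (m n : ℕ) where
  /-- weights: `W j i` is the weight of input `i` at neuron `j` -/
  W : Fin n → Fin m → ℝ
  /-- biases -/
  b : Fin n → ℝ

/-- The output of a layer. -/
noncomputable def Layer.out {m n : ℕ} (L : Layer m n) (z : Fin m → ℝ) : Fin n → ℝ :=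
  fun j => act (∑ i, L.W j i * z i + L.b j)

/-- The function `ℝ^(2n) → {0,1}`: the parity of the number of `i` with `x_i > 0` and
`x_{n+i} > 0`. -/
noncomputable def ip (n : ℕ) (x : Fin (n + n) → ℝ) : ℝ :=
  if Odd (univ.filter fun i : Fin n => 0 < x (Fin.castAdd n i) ∧ 0 < x (Fin.natAdd n i)).card
  then 1 else 0

/-- The set of the subset sums of a weight vector. -/
noncomputable def sums {w : ℕ} (a : Fin w → ℝ) : Finset ℝ :=
  (univ : Finset (Fin w)).powerset.image fun I => ∑ i ∈ I, a i

theorem act_eq (t : ℝ) : act t = 0 ∨ act t = 1 := by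
  unfold act
  split_ifs <;> simp

theorem sum_mem_sums {w : ℕ} (a z : Fin w → ℝ) (hz : ∀ i, z i = 0 ∨ z i = 1) :
    ∑ i, a i * z i ∈ sums a := by
  classical
  unfold sums
  rw [Finset.mem_image]
  refine ⟨univ.filter fun i => z i = 1, Finset.mem_powerset.2 (Finset.subset_univ _), ?_⟩
  rw [Finset.sum_filter]
  refine Finset.sum_congr rfl fun i _ => ?_
  rcases hz i with h | h <;> simp [h]

end Pool.Agent.W2helper95.NN
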