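import Pool.Agent.W2helper95.NN.Stair

/-!
# A Hadamard matrix is not a short combination of staircase matrices
-/

set_option autoImplicit false

namespace Pool.Agent.W2helper95.NN

open Finset

/-- orthonormal functions killed by a family of linear functionals -/
theorem ker_onf {α κ : Type} [Fintype α] [Fintype κ] [DecidableEq α] (w : κ → α → ℝ) :
    ∃ m : ℕ, Fintype.card α ≤ m + Fintype.card κ ∧ ∃ g : Fin m → α → ℝ, ONF g ∧
      ∀ k c, ∑ X, g k X * w c X = 0 := by
  classical
  let T : (α → ℝ) →ₗ[ℝ] (κ → ℝ) := Matrix.mulVecLin (Matrix.of w)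
  let e : EuclideanSpace ℝ α ≃ₗ[ℝ] (α → ℝ) := WithLp.linearEquiv 2 ℝ (α → ℝ)
  let V : Submodule ℝ (EuclideanSpace ℝ α) := LinearMap.ker (T.comp e.toLinearMap)
  refine ⟨Module.finrank ℝ V, ?_, ?_⟩
  · have h1 := LinearMap.finrank_range_add_finrank_ker (T.comp e.toLinearMap)
    have h2 : Module.finrank ℝ (EuclideanSpace ℝ α) = Fintype.card α := finrank_euclideanSpace
    have h3 : Module.finrank ℝ (LinearMap.range (T.comp e.toLinearMap)) ≤ Fintype.card κ := by
      refine (Submodule.finrank_le _).trans ?_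
      rw [Module.finrank_fintype_fun_eq_card]
    rw [h2] at h1
    have h4 : Module.finrank ℝ (LinearMap.ker (T.comp e.toLinearMap)) = Module.finrank ℝ V := rfl
    omega
  · let b := stdOrthonormalBasis ℝ V
    refine ⟨fun k X => ((b k : V) : EuclideanSpace ℝ α) X, ?_, ?_⟩
    · intro k l
      have h1 := orthonormal_iff_ite.1 b.orthonormal k l
      rw [Submodule.coe_inner, PiLp.inner_apply] at h1
      rw [← h1]
      refine Finset.sum_congr rfl fun X _ => ?_
      rw [RCLike.inner_apply, conj_trivial]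
      exact mul_comm _ _
    · intro k c
      have h1 : (T.comp e.toLinearMap) ((b k : V) : EuclideanSpace ℝ α) = 0 := (b k).2
      have h2 := congrFun h1 c
      have h3 : (T.comp e.toLinearMap) ((b k : V) : EuclideanSpace ℝ α) c =
          ∑ X, w c X * ((b k : V) : EuclideanSpace ℝ α) X := rfl
      rw [h3] at h2
      rw [show (0 : κ → ℝ) c = 0 from rfl] at h2
      rw [← h2]
      refine Finset.sum_congr rfl fun X _ => ?_
      ring

section

variable {α β : Type} [Fintype α] [Fintype β] [DecidableEq α]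

/-- the dual family of an orthonormal family -/
noncomputable def dual (χ : α → β → ℝ) (N : ℝ) {ι : Type} (g : ι → α → ℝ) : ι → β → ℝ :=
  fun k Y => (∑ X, g k X * χ X Y) / Real.sqrt N

theorem dual_onf {χ : α → β → ℝ} {N : ℝ} (hN : 0 < N)
    (hχ : ∀ X X', ∑ Y, χ X Y * χ X' Y = if X = X' then N else 0)
    {ι : Type} [Fintype ι] [DecidableEq ι] {g : ι → α → ℝ} (hg : ONF g) :
    ONF (dual χ N g) := by
  intro k l
  rw [← hg k l]
  unfold dual
  have hs : Real.sqrt N * Real.sqrt N = N := Real.mul_self_sqrt hN.le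
  have hs0 : Real.sqrt N ≠ 0 := (Real.sqrt_pos.2 hN).ne'
  have e1 : ∀ Y, (∑ X, g k X * χ X Y) / Real.sqrt N * ((∑ X, g l X * χ X Y) / Real.sqrt N) =
      ∑ X, ∑ X', (g k X * g l X' / N) * (χ X Y * χ X' Y) := by
    intro Y
    rw [div_mul_div_comm, hs, Finset.sum_mul_sum, Finset.sum_div]
    refine Finset.sum_congr rfl fun X _ => ?_
    rw [Finset.sum_div]
    refine Finset.sum_congr rfl fun X' _ => ?_
    ring
  simp only [e1]
  rw [Finset.sum_comm]
  refine Finset.sum_congr rfl fun X _ => ?_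
  rw [Finset.sum_comm]
  have e2 : ∀ X', ∑ Y, (g k X * g l X' / N) * (χ X Y * χ X' Y) =
      if X = X' then g k X * g l X' else 0 := by
    intro X'
    rw [← Finset.mul_sum, hχ]
    split_ifs
    · field_simp
    · simp
  simp only [e2]
  rw [Finset.sum_ite_eq]
  simp

theorem pair_dual {χ : α → β → ℝ} {N : ℝ} (hN : 0 < N)
    (hχ : ∀ X X', ∑ Y, χ X Y * χ X' Y = if X = X' then N else 0)
    {m : ℕ} {g : Fin m → α → ℝ} (hg : ONF g) :
    pair g (dual χ N g) χ = m * Real.sqrt N := by
  unfold pair dual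
  have hs : Real.sqrt N * Real.sqrt N = N := Real.mul_self_sqrt hN.le
  have hs0 : Real.sqrt N ≠ 0 := (Real.sqrt_pos.2 hN).ne'
  have key : ∀ k : Fin m, ∑ X, ∑ Y, g k X * χ X Y * ((∑ X', g k X' * χ X' Y) / Real.sqrt N) =
      Real.sqrt N := by
    intro k
    have e1 : ∀ X, ∑ Y, g k X * χ X Y * ((∑ X', g k X' * χ X' Y) / Real.sqrt N) =
        g k X * g k X * Real.sqrt N := by
      intro X
      have e2 : ∀ Y, g k X * χ X Y * ((∑ X', g k X' * χ X' Y) / Real.sqrt N) =
          ∑ X', (g k X * g k X' / Real.sqrt N) * (χ X Y * χ X' Y) := by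
        intro Y
        rw [Finset.sum_div, Finset.mul_sum]
        refine Finset.sum_congr rfl fun X' _ => ?_
        ring
      simp only [e2]
      rw [Finset.sum_comm]
      have e3 : ∀ X', ∑ Y, (g k X * g k X' / Real.sqrt N) * (χ X Y * χ X' Y) =
          if X = X' then g k X * g k X' * Real.sqrt N else 0 := by
        intro X'
        rw [← Finset.mul_sum, hχ]
        split_ifs
        · field_simp
          rw [pow_two, hs]
        · simp
      simp only [e3]
      rw [Finset.sum_ite_eq]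
      simp
    simp only [e1]
    rw [← Finset.sum_mul]
    have h1 := hg k k
    rw [if_pos rfl] at h1
    rw [h1, one_mul]
  simp only [key]
  simp

/-- The abstract lower bound. -/
theorem abstract_bound [DecidableEq β] {χ : α → β → ℝ} {N : ℕ} (hN : 0 < N)
    (hα : Fintype.card α = N) (hβ : Fintype.card β = N)
    (hχ : ∀ X X', ∑ Y, χ X Y * χ X' Y = if X = X' then (N : ℝ) else 0)
    {w : ℕ} (c : Fin w → ℝ) (d : ℝ) (u : Fin w → α → ℝ) (v : Fin w → β → ℝ)
    (hF : ∀ X Y, ∑ j, c j * (if 0 < u j X + v j Y then 1 else 0) + d = (1 - χ X Y) / 2)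
    (J : Finset (Fin w)) (n : ℕ) (hn : N < 2 ^ n) :
    ((N : ℝ) - (1 + ∑ j ∈ J, ((univ.image (u j)).card : ℝ))) * Real.sqrt N / 2 ≤
      n * N * ∑ j ∈ univ \ J, |c j| := by
  classical
  -- the functionals
  let S : Finset (Σ _ : Fin w, ℝ) := J.sigma fun j => univ.image (u j)
  let κ := Option {p // p ∈ S}
  let W : κ → α → ℝ := fun o X =>
    match o with
    | none => 1
    | some q => if u q.1.1 X = q.1.2 then 1 else 0
  obtain ⟨m, hm, g, hg, hker⟩ := ker_onf W
  have hκ : Fintype.card κ = 1 + ∑ j ∈ J, (univ.image (u j)).card := by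
    have h1 : Fintype.card κ = Fintype.card {p // p ∈ S} + 1 := Fintype.card_option
    rw [h1, Fintype.card_coe, add_comm]
    congr 1
    exact Finset.card_sigma _ _
  have hone : ∀ k, ∑ X, g k X = 0 := by
    intro k
    have := hker k none
    simpa [W] using this
  have hlev : ∀ k, ∀ j ∈ J, ∀ φ : ℝ → ℝ, ∑ X, g k X * φ (u j X) = 0 := by
    intro k j hj φ
    have h1 : ∀ X, g k X * φ (u j X) =
        ∑ r ∈ univ.image (u j), φ r * (g k X * (if u j X = r then 1 else 0)) := by
      intro X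
      rw [Finset.sum_eq_single (u j X)]
      · simp
        ring
      · intro r _ hr
        have : u j X ≠ r := fun h => hr h.symm
        simp [this]
      · intro h
        exact absurd (Finset.mem_image_of_mem _ (Finset.mem_univ X)) h
    simp only [h1]
    rw [Finset.sum_comm]
    refine Finset.sum_eq_zero fun r hr => ?_
    rw [← Finset.mul_sum]
    have h2 := hker k (some ⟨⟨j, r⟩, Finset.mem_sigma.2 ⟨hj, hr⟩⟩)
    have h3 : ∑ X, g k X * (if u j X = r then (1 : ℝ) else 0) = 0 := h2
    rw [h3, mul_zero]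
  have hN' : (0 : ℝ) < N := by exact_mod_cast hN
  obtain ⟨h, hh⟩ : ∃ h, h = dual χ N g := ⟨_, rfl⟩
  have hhO : ONF h := by rw [hh]; exact dual_onf hN' hχ hg
  have hpχ : pair g h χ = m * Real.sqrt N := by rw [hh]; exact pair_dual hN' hχ hg
  have hpc : ∀ t : ℝ, pair g h (fun _ _ => t) = 0 := by
    intro t
    unfold pair
    refine Finset.sum_eq_zero fun k _ => ?_
    rw [Finset.sum_comm]
    refine Finset.sum_eq_zero fun Y _ => ?_
    rw [← Finset.sum_mul, ← Finset.sum_mul, hone k, zero_mul, zero_mul]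
  have hpJ : ∀ j ∈ J, pair g h (fun X Y => if 0 < u j X + v j Y then (1 : ℝ) else 0) = 0 := by
    intro j hj
    unfold pair
    refine Finset.sum_eq_zero fun k _ => ?_
    rw [Finset.sum_comm]
    refine Finset.sum_eq_zero fun Y _ => ?_
    rw [← Finset.sum_mul, hlev k j hj (fun r => if 0 < r + v j Y then 1 else 0), zero_mul]
  have hstair : ∀ j, |pair g h (fun X Y => if 0 < u j X + v j Y then (1 : ℝ) else 0)| ≤ n * N := by
    intro j
    have h1 := stair hg hhO (u j) (v j) n (by rw [hα]; exact hn)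
    rw [hα, hβ] at h1
    have h2 : (n : ℝ) * (((N : ℝ) + N) / 2) = n * N := by ring
    rw [h2] at h1
    exact h1
  -- evaluate the pairing with the function
  have e1 : pair g h (fun X Y => (1 - χ X Y) / 2) = - (m * Real.sqrt N) / 2 := by
    have e2 : (fun X Y => (1 - χ X Y) / 2) = fun X Y => (1 / 2 : ℝ) + (-(1 / 2) : ℝ) * χ X Y := by
      funext X Y
      ring
    rw [e2, pair_add g h (fun _ _ => 1 / 2) (fun X Y => (-(1 / 2) : ℝ) * χ X Y), hpc, pair_smul, hpχ]
    ring
  have e3 : pair g h (fun X Y => (1 - χ X Y) / 2) =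
      ∑ j, c j * pair g h (fun X Y => if 0 < u j X + v j Y then (1 : ℝ) else 0) := by
    have e4 : (fun X Y => (1 - χ X Y) / 2) = fun X Y =>
        (∑ j, c j * (if 0 < u j X + v j Y then (1 : ℝ) else 0)) + d := by
      funext X Y
      rw [hF X Y]
    rw [e4, pair_add g h (fun X Y => ∑ j, c j * (if 0 < u j X + v j Y then (1 : ℝ) else 0))
      (fun _ _ => d), hpc, add_zero,
      pair_sum univ g h (fun j X Y => c j * (if 0 < u j X + v j Y then (1 : ℝ) else 0))]
    refine Finset.sum_congr rfl fun j _ => ?_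
    exact pair_smul g h (c j) (fun X Y => if 0 < u j X + v j Y then (1 : ℝ) else 0)
  have e5 : |∑ j, c j * pair g h (fun X Y => if 0 < u j X + v j Y then (1 : ℝ) else 0)| ≤
      n * N * ∑ j ∈ univ \ J, |c j| := by
    rw [← Finset.sum_sdiff (Finset.subset_univ J)]
    have e6 : ∑ j ∈ J, c j * pair g h (fun X Y => if 0 < u j X + v j Y then (1 : ℝ) else 0) = 0 :=
      Finset.sum_eq_zero fun j hj => by rw [hpJ j hj, mul_zero]
    rw [e6, add_zero, Finset.mul_sum]
    refine (Finset.abs_sum_le_sum_abs _ _).trans (Finset.sum_le_sum fun j _ => ?_)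
    rw [abs_mul, mul_comm]
    exact mul_le_mul_of_nonneg_right (hstair j) (abs_nonneg _)
  rw [← e3, e1] at e5
  have hsq : 0 ≤ Real.sqrt N := Real.sqrt_nonneg _
  have hm0 : (0 : ℝ) ≤ m := Nat.cast_nonneg _
  have e7 : |-(↑m * Real.sqrt ↑N) / 2| = m * Real.sqrt N / 2 := by
    rw [neg_div, abs_neg, abs_of_nonneg (by positivity)]
  rw [e7] at e5
  refine le_trans ?_ e5
  have hmR : (N : ℝ) ≤ m + (1 + ∑ j ∈ J, ((univ.image (u j)).card : ℝ)) := by
    rw [hα, hκ] at hm
    exact_mod_cast hm
  have h8 : (N : ℝ) - (1 + ∑ j ∈ J, ((univ.image (u j)).card : ℝ)) ≤ m := by linarith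
  nlinarith [mul_le_mul_of_nonneg_right h8 hsq]

end

/-- the inner product sign matrix -/
def chi {n : ℕ} (X Y : Fin n → Bool) : ℝ := ∏ i, (if X i = true ∧ Y i = true then (-1 : ℝ) else 1)

theorem chi_orth {n : ℕ} (X X' : Fin n → Bool) :
    ∑ Y, chi X Y * chi X' Y = if X = X' then ((2 ^ n : ℕ) : ℝ) else 0 := by
  classical
  unfold chi
  simp only [← Finset.prod_mul_distrib]
  have h1 := (Finset.prod_univ_sum (fun _ : Fin n => (univ : Finset Bool))
    (fun i b => (if X i = true ∧ b = true then (-1 : ℝ) else 1) *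
      (if X' i = true ∧ b = true then (-1 : ℝ) else 1))).symm
  rw [Fintype.piFinset_univ] at h1
  rw [h1]
  by_cases h : X = X'
  · rw [if_pos h]
    subst h
    have : ∀ i : Fin n, ∑ b : Bool, (if X i = true ∧ b = true then (-1 : ℝ) else 1) *
        (if X i = true ∧ b = true then (-1 : ℝ) else 1) = 2 := by
      intro i
      rw [Fintype.sum_bool]
      by_cases hx : X i = true <;> simp [hx] <;> norm_num
    simp only [this]
    simp
  · rw [if_neg h]
    obtain ⟨i, hi⟩ := Function.ne_iff.1 h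
    refine Finset.prod_eq_zero (Finset.mem_univ i) ?_
    rw [Fintype.sum_bool]
    cases h1 : X i <;> cases h2 : X' i <;> simp_all

end Pool.Agent.W2helper95.NN
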