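import Pool.Agent.W2helper95.NN.Count

/-!
# A Boolean function that needs many linear threshold functions
-/

set_option autoImplicit false

namespace Pool.Agent.W2helper95.NN

open Finset

/-- the constant one and the given functions -/
def gens {N w : ℕ} (h : Fin w → (Fin N → Bool) → ℝ) : Option (Fin w) → (Fin N → Bool) → ℝ :=
  fun o => match o with
  | none => fun _ => 1
  | some j => h j

theorem exists_hard (N : ℕ) : ∃ F : (Fin N → Bool) → Bool, ∀ w : ℕ, ∀ h : Fin w → (Fin N → Bool) → ℝ,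
    (∀ j, h j ∈ LT N) →
    (fun Z => bt (F Z)) ∈ Submodule.span ℝ (Set.range (gens h)) →
    2 ^ N ≤ w * ((N + 1) * (N + 1) + 1) + 1 := by
  classical
  by_contra hcon
  push Not at hcon
  obtain ⟨K, hK⟩ : ∃ K, K = (N + 1) * (N + 1) := ⟨_, rfl⟩
  rw [← hK] at hcon
  -- a common number of gates
  obtain ⟨w, hw⟩ : ∃ w, w = (2 ^ N - 2) / (K + 1) := ⟨_, rfl⟩
  obtain ⟨hfin, hcard⟩ := LT_finite N
  haveI : Fintype (LT N) := hfin.fintype
  have hLT : Fintype.card (LT N) ≤ 2 ^ K := by
    rw [hK]
    refine le_trans (le_of_eq ?_) hcard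
    rw [← Nat.card_eq_fintype_card, Nat.card_coe_set_eq]
  have h0 : (fun _ => 0 : (Fin N → Bool) → ℝ) ∈ LT N := by
    refine ⟨fun _ => 0, 0, fun Z => ?_⟩
    simp [act]
  have hall : ∀ F : (Fin N → Bool) → Bool, ∃ g : Fin w → LT N,
      (fun Z => bt (F Z)) ∈ Submodule.span ℝ (Set.range (gens fun j => (g j).1)) := by
    intro F
    obtain ⟨w', h, hh, hmem, hlt⟩ := hcon F
    have hw' : w' ≤ w := by
      rw [hw, Nat.le_div_iff_mul_le (by omega)]
      omega
    refine ⟨fun j => if hj : j.val < w' then ⟨h ⟨j.val, hj⟩, hh _⟩ else ⟨_, h0⟩, ?_⟩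
    refine Submodule.span_mono ?_ hmem
    rintro _ ⟨o, rfl⟩
    cases o with
    | none => exact ⟨none, rfl⟩
    | some j =>
      refine ⟨some ⟨j.val, by omega⟩, ?_⟩
      show (if hj : j.val < w' then (⟨h ⟨j.val, hj⟩, hh _⟩ : LT N) else ⟨_, h0⟩).1 = h j
      rw [dif_pos j.isLt]
  choose g hg using hall
  have h1 : (univ : Finset ((Fin N → Bool) → Bool)).card ≤ 2 ^ (w + 1) * (univ.image g).card := by
    refine Finset.card_le_mul_card_image _ _ fun t _ => ?_
    refine few_boolean (Submodule.span ℝ (Set.range (gens fun j => (t j).1))) (w + 1) ?_ _ ?_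
    · have h2 := finrank_range_le_card (R := ℝ) (gens (N := N) fun j : Fin w => (t j).1)
      rw [Fintype.card_option, Fintype.card_fin] at h2
      exact h2
    · intro F hF
      rw [Finset.mem_filter] at hF
      have := hg F
      rw [hF.2] at this
      exact this
  have h2 : (univ.image g).card ≤ (2 ^ K) ^ w := by
    refine (Finset.card_le_univ _).trans ?_
    rw [Fintype.card_fun, Fintype.card_fin]
    exact Nat.pow_le_pow_left hLT w
  have h3 : (univ : Finset ((Fin N → Bool) → Bool)).card = 2 ^ 2 ^ N := by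
    rw [Finset.card_univ]
    simp
  rw [h3] at h1
  have h4 : 2 ^ 2 ^ N ≤ 2 ^ (w + 1 + K * w) := by
    refine h1.trans ((Nat.mul_le_mul_left _ h2).trans ?_)
    rw [← pow_mul, ← pow_add]
  have h5 : 2 ^ N ≤ w + 1 + K * w := (Nat.pow_le_pow_iff_right (by norm_num)).1 h4
  -- the choice of `w`
  obtain ⟨w', h, hh, hmem, hlt⟩ := hcon fun _ => false
  have h6 : w * (K + 1) ≤ 2 ^ N - 2 := by
    rw [hw]
    exact Nat.div_mul_le_self _ _
  have h7 : w * (K + 1) = w + K * w := by ring
  omega

/-- the function of the sign bits -/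
noncomputable def signFun {N : ℕ} (F : (Fin N → Bool) → Bool) (x : Fin N → ℝ) : ℝ :=
  bt (F fun i => decide (0 < x i))

theorem signFun_pt {N : ℕ} (F : (Fin N → Bool) → Bool) {ε : ℝ} (hε : 0 < ε) (Z : Fin N → Bool) :
    signFun F (pt ε Z) = bt (F Z) := by
  unfold signFun
  congr 2
  funext i
  have := pt_pos hε Z i
  by_cases h : Z i = true
  · rw [h]
    exact decide_eq_true (this.2 h)
  · rw [Bool.not_eq_true] at h
    rw [h]
    exact decide_eq_false fun h2 => by
      rw [this.1 h2] at h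
      exact Bool.noConfusion h

/-- a neuron reading one bit -/
theorem read_bit {N w : ℕ} (L : Layer N w) {ε : ℝ} {l : Fin w → Fin N}
    (hl : ∀ j (Z Z' : Fin N → Bool), Z (l j) = Z' (l j) →
      L.out (pt ε Z) j = L.out (pt ε Z') j) (j : Fin w) (Z : Fin N → Bool) :
    L.out (pt ε Z) j = L.out (pt ε fun _ => false) j +
      (L.out (pt ε fun _ => true) j - L.out (pt ε fun _ => false) j) * bt (Z (l j)) := by
  unfold bt
  cases h : Z (l j)
  · rw [hl j Z (fun _ => false) h]
    simp
  · rw [hl j Z (fun _ => true) h]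
    simp

theorem two_layer_rep {N w1 w2 : ℕ} (hN : 0 < N) (F : (Fin N → Bool) → Bool)
    (L1 : Layer N w1) (L2 : Layer w1 w2) (c : Fin w2 → ℝ) (d : ℝ)
    (hf : ∀ x, signFun F x = ∑ j, c j * L2.out (L1.out x) j + d) :
    ∃ h : Fin w2 → (Fin N → Bool) → ℝ, (∀ j, h j ∈ LT N) ∧
      (fun Z => bt (F Z)) ∈ Submodule.span ℝ (Set.range (gens h)) := by
  classical
  obtain ⟨ε, hε, l, hl⟩ := local_points hN L1
  refine ⟨fun j Z => L2.out (L1.out (pt ε Z)) j, fun j => ?_, ?_⟩
  · refine ⟨fun q => ∑ i, if l i = q then L2.W j i *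
      (L1.out (pt ε fun _ => true) i - L1.out (pt ε fun _ => false) i) else 0,
      ∑ i, L2.W j i * L1.out (pt ε fun _ => false) i + L2.b j, fun Z => ?_⟩
    show act _ = act _
    congr 1
    rw [← add_assoc]
    congr 1
    simp only [Finset.sum_mul]
    rw [Finset.sum_comm, ← Finset.sum_add_distrib]
    refine Finset.sum_congr rfl fun i _ => ?_
    rw [Finset.sum_eq_single (l i)]
    · rw [if_pos rfl, read_bit L1 hl i Z]
      ring
    · intro q _ hq
      rw [if_neg (Ne.symm hq), zero_mul]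
    · intro h
      exact absurd (Finset.mem_univ _) h
  · have e : (fun Z => bt (F Z)) = ∑ j, c j • (gens (fun j Z => L2.out (L1.out (pt ε Z)) j)
        (some j)) + d • (gens (fun j Z => L2.out (L1.out (pt ε Z)) j) none) := by
      funext Z
      rw [← signFun_pt F hε Z, hf]
      simp [gens, Finset.sum_apply]
    rw [e]
    refine Submodule.add_mem _ (Submodule.sum_mem _ fun j _ => Submodule.smul_mem _ _
      (Submodule.subset_span ⟨_, rfl⟩)) (Submodule.smul_mem _ _ (Submodule.subset_span ⟨_, rfl⟩))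

theorem one_layer_rep {N w : ℕ} (hN : 0 < N) (F : (Fin N → Bool) → Bool)
    (L : Layer N w) (c : Fin w → ℝ) (d : ℝ)
    (hf : ∀ x, signFun F x = ∑ j, c j * L.out x j + d) :
    ∃ h : Fin w → (Fin N → Bool) → ℝ, (∀ j, h j ∈ LT N) ∧
      (fun Z => bt (F Z)) ∈ Submodule.span ℝ (Set.range (gens h)) := by
  classical
  obtain ⟨ε, hε, l, hl⟩ := local_points hN L
  refine ⟨fun j Z => L.out (pt ε Z) j, fun j => ?_, ?_⟩
  · have h01 : ∀ x, L.out x j = 0 ∨ L.out x j = 1 := fun x => act_eq _
    refine ⟨fun q => if l j = q then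
      (L.out (pt ε fun _ => true) j - L.out (pt ε fun _ => false) j) else 0,
      L.out (pt ε fun _ => false) j, fun Z => ?_⟩
    have h1 : ∑ q, (if l j = q then
        (L.out (pt ε fun _ => true) j - L.out (pt ε fun _ => false) j) else 0) * bt (Z q) +
        L.out (pt ε fun _ => false) j = L.out (pt ε Z) j := by
      rw [Finset.sum_eq_single (l j)]
      · rw [if_pos rfl, read_bit L hl j Z]
        ring
      · intro q _ hq
        rw [if_neg (Ne.symm hq), zero_mul]
      · intro h
        exact absurd (Finset.mem_univ _) h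
    rw [h1]
    show L.out (pt ε Z) j = act (L.out (pt ε Z) j)
    rcases h01 (pt ε Z) with h2 | h2 <;> rw [h2] <;> simp [act]
  · have e : (fun Z => bt (F Z)) = ∑ j, c j • (gens (fun j Z => L.out (pt ε Z) j)
        (some j)) + d • (gens (fun j Z => L.out (pt ε Z) j) none) := by
      funext Z
      rw [← signFun_pt F hε Z, hf]
      simp [gens, Finset.sum_apply]
    rw [e]
    refine Submodule.add_mem _ (Submodule.sum_mem _ fun j _ => Submodule.smul_mem _ _
      (Submodule.subset_span ⟨_, rfl⟩)) (Submodule.smul_mem _ _ (Submodule.subset_span ⟨_, rfl⟩))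

end Pool.Agent.W2helper95.NN
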