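import Pool.Agent.W2helper95.NN.Count

/-!
# A threshold function cuts few edges of the cube
-/

set_option autoImplicit false

namespace Pool.Agent.W2helper95.NN

open Finset

section

variable {ι : Type} [Fintype ι] [DecidableEq ι]

/-- sign of a bit -/
def sgn (b : Bool) : ℝ := if b = true then 1 else -1

/-- flipping one bit -/
def flip (l : ι) (Z : ι → Bool) : ι → Bool := Function.update Z l (!Z l)

theorem flip_flip (l : ι) (Z : ι → Bool) : flip l (flip l Z) = Z := by
  unfold flip
  simp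

theorem sum_flip (l : ι) (G : (ι → Bool) → ℝ) : ∑ Z, G (flip l Z) = ∑ Z, G Z := by
  refine Fintype.sum_bijective (flip l) ?_ _ _ fun Z => rfl
  exact Function.Involutive.bijective (flip_flip l)

theorem sgn_flip_self (l : ι) (Z : ι → Bool) : sgn (flip l Z l) = - sgn (Z l) := by
  unfold flip sgn
  cases h : Z l <;> simp

theorem sgn_flip_ne {l l' : ι} (h : l' ≠ l) (Z : ι → Bool) : sgn (flip l Z l') = sgn (Z l') := by
  unfold flip
  rw [Function.update_of_ne h]

theorem sum_sgn (l : ι) : ∑ Z : ι → Bool, sgn (Z l) = 0 := by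
  have h := sum_flip l fun Z => sgn (Z l)
  simp only [sgn_flip_self, Finset.sum_neg_distrib] at h
  linarith

theorem sgn_sq (b : Bool) : sgn b * sgn b = 1 := by
  unfold sgn
  cases b <;> simp

theorem sum_sgn_mul (l l' : ι) : ∑ Z : ι → Bool, sgn (Z l) * sgn (Z l') =
    if l = l' then (2 : ℝ) ^ Fintype.card ι else 0 := by
  by_cases h : l = l'
  · rw [if_pos h]
    subst h
    simp only [sgn_sq]
    simp
  · rw [if_neg h]
    have h1 := sum_flip l fun Z => sgn (Z l) * sgn (Z l')
    simp only [sgn_flip_self, sgn_flip_ne (Ne.symm h), neg_mul, Finset.sum_neg_distrib] at h1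
    linarith

/-- the edge in direction `l` at `Z`: one if it is cut, zero otherwise (for `H` with values
`0, 1`) -/
def cut (H : (ι → Bool) → ℝ) (l : ι) (Z : ι → Bool) : ℝ :=
  |H (Function.update Z l true) - H (Function.update Z l false)|

theorem cut_eq {H : (ι → Bool) → ℝ} (a : ι → ℝ) (β : ℝ)
    (hH : ∀ Z, H Z = act (∑ l, a l * bt (Z l) + β)) (l : ι) (Z : ι → Bool) :
    cut H l Z = (if 0 ≤ a l then 1 else -1) *
      (H (Function.update Z l true) - H (Function.update Z l false)) := by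
  obtain ⟨S, hS⟩ : ∃ S, S = ∑ l' ∈ univ.erase l, a l' * bt (Z l') := ⟨_, rfl⟩
  have e : ∀ t : Bool, ∑ l', a l' * bt (Function.update Z l t l') + β = a l * bt t + (S + β) := by
    intro t
    rw [← Finset.add_sum_erase univ _ (Finset.mem_univ l), hS, Function.update_self, add_assoc]
    congr 2
    refine Finset.sum_congr rfl fun l' hl' => ?_
    rw [Function.update_of_ne (Finset.ne_of_mem_erase hl')]
  unfold cut
  rw [hH, hH, e, e]
  unfold act bt
  simp only [if_true, mul_one, Bool.false_eq_true, if_false, mul_zero, zero_add]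
  by_cases h0 : 0 ≤ a l
  · rw [if_pos h0]
    by_cases h1 : 0 < a l + (S + β) <;> by_cases h2 : 0 < S + β
    · simp [h1, h2]
    · simp [h1, h2]
    · exact absurd (by linarith) h1
    · simp [h1, h2]
  · rw [if_neg h0]
    by_cases h1 : 0 < a l + (S + β) <;> by_cases h2 : 0 < S + β
    · simp [h1, h2]
    · exact absurd (by linarith [not_le.1 h0]) h2
    · simp [h1, h2]
    · simp [h1, h2]

/-- The number of cut edges in the directions of `S`. -/
theorem cutsum {H : (ι → Bool) → ℝ} (a : ι → ℝ) (β : ℝ)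
    (hH : ∀ Z, H Z = act (∑ l, a l * bt (Z l) + β)) (S : Finset ι) (B : ℕ) (hB : 0 < B)
    (hS : S.card ≤ B ^ 2) :
    ∑ l ∈ S, ∑ Z : ι → Bool, cut H l Z ≤ B * 2 ^ Fintype.card ι := by
  have h1 : ∀ l, ∑ Z : ι → Bool, cut H l Z =
      ∑ Z, (2 * H Z - 1) * ((if 0 ≤ a l then 1 else -1) * sgn (Z l)) := by
    intro l
    obtain ⟨s, hs⟩ : ∃ s : ℝ, s = if 0 ≤ a l then 1 else -1 := ⟨_, rfl⟩
    have e1 : ∀ Z : ι → Bool, cut H l Z =
        s * (sgn (Z l) * (H Z - H (flip l Z))) := by
      intro Z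
      rw [cut_eq a β hH l Z, ← hs]
      congr 1
      unfold flip sgn
      cases h : Z l
      · have e2 : Function.update Z l false = Z := by
          rw [← h]
          exact Function.update_eq_self l Z
        rw [e2]
        simp
      · have e2 : Function.update Z l true = Z := by
          rw [← h]
          exact Function.update_eq_self l Z
        rw [e2]
        simp
    simp only [e1, ← hs]
    have e3 : ∑ Z : ι → Bool, sgn (Z l) * H (flip l Z) = - ∑ Z : ι → Bool, sgn (Z l) * H Z := by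
      have := sum_flip l fun Z => sgn (Z l) * H (flip l Z)
      simp only [sgn_flip_self, flip_flip, neg_mul, Finset.sum_neg_distrib] at this
      exact this.symm
    have e4 : ∑ Z : ι → Bool, s * (sgn (Z l) * (H Z - H (flip l Z))) =
        s * (2 * ∑ Z : ι → Bool, sgn (Z l) * H Z) := by
      rw [← Finset.mul_sum]
      congr 1
      simp only [mul_sub, Finset.sum_sub_distrib]
      rw [e3]
      ring
    have e5 : ∑ Z : ι → Bool, (2 * H Z - 1) * (s * sgn (Z l)) =
        s * (2 * ∑ Z : ι → Bool, sgn (Z l) * H Z) - s * ∑ Z : ι → Bool, sgn (Z l) := by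
      rw [Finset.mul_sum, Finset.mul_sum, Finset.mul_sum, ← Finset.sum_sub_distrib]
      refine Finset.sum_congr rfl fun Z _ => ?_
      ring
    rw [e4, e5, sum_sgn, mul_zero, sub_zero]
  simp only [h1]
  rw [Finset.sum_comm]
  simp only [← Finset.mul_sum]
  have hH01 : ∀ Z, |2 * H Z - 1| = 1 := by
    intro Z
    rw [hH Z]
    rcases act_eq (∑ l, a l * bt (Z l) + β) with h | h <;> rw [h] <;> norm_num
  have hB' : (0 : ℝ) < B := by exact_mod_cast hB
  have h2 : ∀ Z : ι → Bool, (2 * H Z - 1) * ∑ l ∈ S, (if 0 ≤ a l then (1 : ℝ) else -1) * sgn (Z l) ≤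
      ((∑ l ∈ S, (if 0 ≤ a l then (1 : ℝ) else -1) * sgn (Z l)) ^ 2 / B + B) / 2 := by
    intro Z
    obtain ⟨R, hR⟩ : ∃ R, R = ∑ l ∈ S, (if 0 ≤ a l then (1 : ℝ) else -1) * sgn (Z l) := ⟨_, rfl⟩
    rw [← hR]
    have h3 : (2 * H Z - 1) * R ≤ |R| := by
      refine (le_abs_self _).trans ?_
      rw [abs_mul, hH01, one_mul]
    have h4 : |R| ≤ (R ^ 2 / B + B) / 2 := by
      rw [le_div_iff₀ (by norm_num), div_add' _ _ _ hB'.ne', le_div_iff₀ hB']
      nlinarith [sq_nonneg (|R| - B), sq_abs R]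
    exact h3.trans h4
  refine (Finset.sum_le_sum fun Z _ => h2 Z).trans ?_
  have h5 : ∑ Z : ι → Bool, (∑ l ∈ S, (if 0 ≤ a l then (1 : ℝ) else -1) * sgn (Z l)) ^ 2 =
      S.card * 2 ^ Fintype.card ι := by
    have e1 : ∀ Z : ι → Bool, (∑ l ∈ S, (if 0 ≤ a l then (1 : ℝ) else -1) * sgn (Z l)) ^ 2 =
        ∑ l ∈ S, ∑ l' ∈ S, ((if 0 ≤ a l then (1 : ℝ) else -1) * (if 0 ≤ a l' then (1 : ℝ) else -1)) *
          (sgn (Z l) * sgn (Z l')) := by
      intro Z
      rw [pow_two, Finset.sum_mul_sum]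
      refine Finset.sum_congr rfl fun l _ => Finset.sum_congr rfl fun l' _ => ?_
      ring
    simp only [e1]
    rw [Finset.sum_comm]
    have e2 : ∀ l ∈ S, ∑ Z : ι → Bool, ∑ l' ∈ S,
        ((if 0 ≤ a l then (1 : ℝ) else -1) * (if 0 ≤ a l' then (1 : ℝ) else -1)) *
          (sgn (Z l) * sgn (Z l')) = 2 ^ Fintype.card ι := by
      intro l hl
      rw [Finset.sum_comm]
      simp only [← Finset.mul_sum, sum_sgn_mul]
      rw [Finset.sum_eq_single l]
      · rw [if_pos rfl]
        split_ifs <;> ring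
      · intro l' _ hne
        rw [if_neg (Ne.symm hne), mul_zero]
      · intro h
        exact absurd hl h
    rw [Finset.sum_congr rfl e2, Finset.sum_const, nsmul_eq_mul]
  rw [← Finset.sum_div, Finset.sum_add_distrib, ← Finset.sum_div, h5]
  simp only [Finset.sum_const, Finset.card_univ, Fintype.card_fun, Fintype.card_bool, nsmul_eq_mul]
  push_cast
  have h6 : (S.card : ℝ) ≤ B ^ 2 := by exact_mod_cast hS
  have h7 : (0 : ℝ) < 2 ^ Fintype.card ι := by positivity
  have h8 : (S.card : ℝ) * 2 ^ Fintype.card ι / B ≤ B * 2 ^ Fintype.card ι := by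
    rw [div_le_iff₀ hB']
    nlinarith
  linarith

end

end Pool.Agent.W2helper95.NN
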