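import Mathlib

/-!
# Points of very different scales: an affine threshold depends on one sign only
-/

set_option autoImplicit false

namespace Pool.Agent.W2helper95.NN

open Finset Filter Topology

/-- the leading coefficient decides -/
theorem lead_pos {N : ℕ} (a : Fin N → ℝ) (l : Fin N) (hl : a l ≠ 0) (h0 : ∀ i < l, a i = 0) :
    ∀ᶠ ε : ℝ in 𝓝[>] 0, ∀ s : Fin N → ℝ, (∀ i, |s i| = 1) →
      (0 < ∑ i, a i * (s i * ε ^ (i.val + 1)) ↔ 0 < a l * s l) := by
  have hA : 0 < |a l| := abs_pos.2 hl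
  obtain ⟨A, hAdef⟩ : ∃ A, A = ∑ i, |a i| := ⟨_, rfl⟩
  have hA0 : 0 ≤ A := by rw [hAdef]; exact Finset.sum_nonneg fun i _ => abs_nonneg _
  have h1 : ∀ᶠ ε : ℝ in 𝓝[>] 0, ε < min 1 (|a l| / (A + 1)) := by
    refine eventually_nhdsWithin_of_eventually_nhds (eventually_lt_nhds ?_)
    exact lt_min one_pos (div_pos hA (by linarith))
  filter_upwards [h1, self_mem_nhdsWithin] with ε hε hε0 s hs
  have hε0' : 0 < ε := hε0
  have hε1 : ε < 1 := lt_of_lt_of_le hε (min_le_left _ _)
  have hε2 : ε * (A + 1) < |a l| := by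
    have := lt_of_lt_of_le hε (min_le_right _ _)
    rwa [lt_div_iff₀ (by linarith)] at this
  have hsplit : ∑ i, a i * (s i * ε ^ (i.val + 1)) =
      a l * s l * ε ^ (l.val + 1) + ∑ i ∈ univ.erase l, a i * (s i * ε ^ (i.val + 1)) := by
    rw [← Finset.add_sum_erase univ _ (Finset.mem_univ l)]
    ring
  have hrest : |∑ i ∈ univ.erase l, a i * (s i * ε ^ (i.val + 1))| ≤
      A * ε * ε ^ (l.val + 1) := by
    refine (Finset.abs_sum_le_sum_abs _ _).trans ?_
    have h2 : ∀ i ∈ univ.erase l, |a i * (s i * ε ^ (i.val + 1))| ≤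
        |a i| * (ε * ε ^ (l.val + 1)) := by
      intro i hi
      have hne : i ≠ l := (Finset.mem_erase.1 hi).1
      rw [abs_mul, abs_mul, hs i, one_mul, abs_of_pos (pow_pos hε0' _)]
      rcases lt_or_gt_of_ne hne with h3 | h3
      · rw [h0 i h3]
        simp
      · refine mul_le_mul_of_nonneg_left ?_ (abs_nonneg _)
        rw [← pow_succ']
        exact pow_le_pow_of_le_one hε0'.le hε1.le (by
          have : l.val < i.val := h3
          omega)
    refine (Finset.sum_le_sum h2).trans ?_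
    rw [← Finset.sum_mul]
    have h3 : ∑ i ∈ univ.erase l, |a i| ≤ A := by
      rw [hAdef]
      exact Finset.sum_le_sum_of_subset_of_nonneg (Finset.erase_subset _ _)
        fun i _ _ => abs_nonneg _
    have h4 : 0 ≤ ε * ε ^ (l.val + 1) := by positivity
    nlinarith
  have hp : 0 < ε ^ (l.val + 1) := pow_pos hε0' _
  have hlt : A * ε * ε ^ (l.val + 1) < |a l| * ε ^ (l.val + 1) := by
    refine mul_lt_mul_of_pos_right ?_ hp
    nlinarith
  have hb := abs_le.1 hrest
  have habs : |a l * s l| = |a l| := by rw [abs_mul, hs l, mul_one]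
  rw [hsplit]
  constructor
  · intro h
    by_contra hcon
    have h5 : a l * s l = - |a l| := by
      rw [← habs, abs_of_nonpos (not_lt.1 hcon)]
      ring
    rw [h5] at h
    nlinarith [hb.2]
  · intro h
    have h5 : a l * s l = |a l| := by rw [← habs, abs_of_pos h]
    rw [h5]
    nlinarith [hb.1]

/-- An affine threshold depends on at most one sign at small scales. -/
theorem lex_one {N : ℕ} (hN : 0 < N) (a : Fin N → ℝ) (b : ℝ) :
    ∀ᶠ ε : ℝ in 𝓝[>] 0, ∃ l : Fin N, ∀ s s' : Fin N → ℝ, (∀ i, |s i| = 1) → (∀ i, |s' i| = 1) →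
      s l = s' l → (0 < ∑ i, a i * (s i * ε ^ (i.val + 1)) + b ↔
        0 < ∑ i, a i * (s' i * ε ^ (i.val + 1)) + b) := by
  by_cases hb : b = 0
  · subst hb
    by_cases ha : ∀ i, a i = 0
    · refine Filter.Eventually.of_forall fun ε => ⟨⟨0, hN⟩, fun s s' _ _ _ => ?_⟩
      simp [ha]
    · push Not at ha
      classical
      obtain ⟨i0, hi0⟩ := ha
      obtain ⟨l, hl, hmin⟩ : ∃ l : Fin N, a l ≠ 0 ∧ ∀ i < l, a i = 0 := by
        have hne : (univ.filter fun i => a i ≠ 0).Nonempty := ⟨i0, by simp [hi0]⟩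
        refine ⟨(univ.filter fun i => a i ≠ 0).min' hne, ?_, ?_⟩
        · have := Finset.min'_mem _ hne
          exact (Finset.mem_filter.1 this).2
        · intro i hi
          by_contra hcon
          have := Finset.min'_le (univ.filter fun i => a i ≠ 0) i
            (Finset.mem_filter.2 ⟨Finset.mem_univ _, hcon⟩)
          exact absurd hi (not_lt.2 this)
      filter_upwards [lead_pos a l hl hmin] with ε hε
      refine ⟨l, fun s s' hs hs' hss => ?_⟩
      rw [add_zero, add_zero, hε s hs, hε s' hs', hss]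
  · obtain ⟨A, hAdef⟩ : ∃ A, A = ∑ i, |a i| := ⟨_, rfl⟩
    have hA0 : 0 ≤ A := by rw [hAdef]; exact Finset.sum_nonneg fun i _ => abs_nonneg _
    have hb0 : 0 < |b| := abs_pos.2 hb
    have h1 : ∀ᶠ ε : ℝ in 𝓝[>] 0, ε < min 1 (|b| / (A + 1)) := by
      refine eventually_nhdsWithin_of_eventually_nhds (eventually_lt_nhds ?_)
      exact lt_min one_pos (div_pos hb0 (by linarith))
    filter_upwards [h1, self_mem_nhdsWithin] with ε hε hε0
    have hε0' : 0 < ε := hε0
    have hε1 : ε < 1 := lt_of_lt_of_le hε (min_le_left _ _)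
    have hε2 : ε * (A + 1) < |b| := by
      have := lt_of_lt_of_le hε (min_le_right _ _)
      rwa [lt_div_iff₀ (by linarith)] at this
    have key : ∀ s : Fin N → ℝ, (∀ i, |s i| = 1) →
        |∑ i, a i * (s i * ε ^ (i.val + 1))| < |b| := by
      intro s hs
      refine lt_of_le_of_lt (Finset.abs_sum_le_sum_abs _ _) ?_
      have h2 : ∀ i ∈ (univ : Finset (Fin N)), |a i * (s i * ε ^ (i.val + 1))| ≤ |a i| * ε := by
        intro i _
        rw [abs_mul, abs_mul, hs i, one_mul, abs_of_pos (pow_pos hε0' _)]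
        refine mul_le_mul_of_nonneg_left ?_ (abs_nonneg _)
        calc ε ^ (i.val + 1) ≤ ε ^ 1 := pow_le_pow_of_le_one hε0'.le hε1.le (by omega)
          _ = ε := pow_one ε
      refine lt_of_le_of_lt (Finset.sum_le_sum h2) ?_
      rw [← Finset.sum_mul, ← hAdef]
      nlinarith
    refine ⟨⟨0, hN⟩, fun s s' hs hs' _ => ?_⟩
    have k1 := abs_lt.1 (key s hs)
    have k2 := abs_lt.1 (key s' hs')
    rcases lt_or_gt_of_ne hb with h3 | h3
    · rw [abs_of_neg h3] at k1 k2
      constructor <;> intro h4 <;> exfalso <;> linarith [k1.2, k2.2]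
    · rw [abs_of_pos h3] at k1 k2
      constructor <;> intro _ <;> linarith [k1.1, k2.1]

/-- The same for finitely many affine thresholds, with one scale. -/
theorem lex_all {N w : ℕ} (hN : 0 < N) (a : Fin w → Fin N → ℝ) (b : Fin w → ℝ) :
    ∃ ε : ℝ, 0 < ε ∧ ∀ j : Fin w, ∃ l : Fin N, ∀ s s' : Fin N → ℝ, (∀ i, |s i| = 1) →
      (∀ i, |s' i| = 1) → s l = s' l → (0 < ∑ i, a j i * (s i * ε ^ (i.val + 1)) + b j ↔
        0 < ∑ i, a j i * (s' i * ε ^ (i.val + 1)) + b j) := by
  have h := Filter.eventually_all.2 fun j => lex_one hN (a j) (b j)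
  obtain ⟨ε, h1, h2⟩ := (h.and self_mem_nhdsWithin).exists
  exact ⟨ε, h2, h1⟩

end Pool.Agent.W2helper95.NN
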