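import Pool.Agent.W2helper95.NN.Defs
import Pool.Agent.W2helper95.NN.Lex

/-!
# Points at which every first-layer neuron reads a single sign
-/

set_option autoImplicit false

namespace Pool.Agent.W2helper95.NN

open Finset

/-- sign vector of a Boolean vector -/
def sg {N : ℕ} (Z : Fin N → Bool) : Fin N → ℝ := fun l => if Z l = true then 1 else -1

/-- the point with the given signs and coordinates of size `ε, ε², …` -/
def pt {N : ℕ} (ε : ℝ) (Z : Fin N → Bool) : Fin N → ℝ := fun l => sg Z l * ε ^ (l.val + 1)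

theorem abs_sg {N : ℕ} (Z : Fin N → Bool) (l : Fin N) : |sg Z l| = 1 := by
  unfold sg
  split_ifs <;> simp

theorem pt_pos {N : ℕ} {ε : ℝ} (hε : 0 < ε) (Z : Fin N → Bool) (l : Fin N) :
    0 < pt ε Z l ↔ Z l = true := by
  unfold pt sg
  have : 0 < ε ^ (l.val + 1) := pow_pos hε _
  by_cases h : Z l = true
  · simp [h, this]
  · simp [h]
    exact this.le

/-- At suitable points every first-layer neuron depends on one sign only. -/
theorem local_points {N w : ℕ} (hN : 0 < N) (L : Layer N w) :
    ∃ ε : ℝ, 0 < ε ∧ ∃ l : Fin w → Fin N, ∀ j (Z Z' : Fin N → Bool), Z (l j) = Z' (l j) →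
      L.out (pt ε Z) j = L.out (pt ε Z') j := by
  obtain ⟨ε, hε, h⟩ := lex_all hN L.W L.b
  choose l hl using h
  refine ⟨ε, hε, l, fun j Z Z' hZ => ?_⟩
  unfold Layer.out act
  refine if_congr ?_ rfl rfl
  exact hl j (sg Z) (sg Z') (abs_sg Z) (abs_sg Z') (by unfold sg; rw [hZ])

end Pool.Agent.W2helper95.NN
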