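import Pool.Agent.W2helper95.NN.Local
import Pool.Agent.W2helper95.NN.Had

/-!
# The lower bound for two hidden layers
-/

set_option autoImplicit false

namespace Pool.Agent.W2helper95.NN

open Finset

theorem ip_pt {n : ℕ} {ε : ℝ} (hε : 0 < ε) (X Y : Fin n → Bool) :
    ip n (pt ε (Fin.append X Y)) = (1 - chi X Y) / 2 := by
  classical
  have h1 : chi X Y = (-1 : ℝ) ^ (univ.filter fun i : Fin n => 0 < pt ε (Fin.append X Y)
      (Fin.castAdd n i) ∧ 0 < pt ε (Fin.append X Y) (Fin.natAdd n i)).card := by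
    have h0 : (univ.filter fun i : Fin n => 0 < pt ε (Fin.append X Y) (Fin.castAdd n i) ∧
        0 < pt ε (Fin.append X Y) (Fin.natAdd n i)) =
        univ.filter fun i : Fin n => X i = true ∧ Y i = true := by
      refine Finset.filter_congr fun i _ => ?_
      rw [pt_pos hε, pt_pos hε, Fin.append_left, Fin.append_right]
    rw [h0]
    unfold chi
    rw [Finset.prod_ite, Finset.prod_const, Finset.prod_const_one, mul_one]
  unfold ip
  rw [h1]
  split_ifs with h
  · rw [h.neg_one_pow]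
    norm_num
  · rw [(Nat.not_odd_iff_even.1 h).neg_one_pow]
    norm_num

theorem lower (n : ℕ) (hn : 1 ≤ n) {w1 w2 : ℕ} (L1 : Layer (n + n) w1) (L2 : Layer w1 w2)
    (c : Fin w2 → ℝ) (d : ℝ) (hf : ∀ x, ip n x = ∑ j, c j * L2.out (L1.out x) j + d)
    (J : Finset (Fin w2)) :
    2 ^ (n - 1) ≤ ∑ j ∈ J, (sums (L2.W j)).card ∨
      Real.sqrt (2 ^ n) ≤ 4 * (n + 1) * ∑ j ∈ univ \ J, |c j| := by
  classical
  obtain ⟨ε, hε, l, hl⟩ := local_points (by omega : 0 < n + n) L1
  let X0 : Fin n → Bool := fun _ => false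
  let A : Fin w1 → (Fin n → Bool) → ℝ := fun i X =>
    if (l i).val < n then L1.out (pt ε (Fin.append X X0)) i else 0
  let B : Fin w1 → (Fin n → Bool) → ℝ := fun i Y =>
    if (l i).val < n then 0 else L1.out (pt ε (Fin.append X0 Y)) i
  have hAB : ∀ X Y i, L1.out (pt ε (Fin.append X Y)) i = A i X + B i Y := by
    intro X Y i
    simp only [A, B]
    by_cases h : (l i).val < n
    · rw [if_pos h, if_pos h, add_zero]
      refine hl i _ _ ?_
      have e : l i = Fin.castAdd n ⟨(l i).val, h⟩ := by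
        apply Fin.ext
        simp
      rw [e, Fin.append_left, Fin.append_left]
    · rw [if_neg h, if_neg h, zero_add]
      refine hl i _ _ ?_
      have e : l i = Fin.natAdd n ⟨(l i).val - n, by omega⟩ := by
        apply Fin.ext
        simp
        omega
      rw [e, Fin.append_right, Fin.append_right]
  let u : Fin w2 → (Fin n → Bool) → ℝ := fun j X => ∑ i, L2.W j i * A i X
  let v : Fin w2 → (Fin n → Bool) → ℝ := fun j Y => ∑ i, L2.W j i * B i Y + L2.b j
  have huv : ∀ j X Y, ∑ i, L2.W j i * L1.out (pt ε (Fin.append X Y)) i + L2.b j =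
      u j X + v j Y := by
    intro j X Y
    simp only [hAB, mul_add, Finset.sum_add_distrib, u, v]
    ring
  have hF : ∀ X Y, ∑ j, c j * (if 0 < u j X + v j Y then 1 else 0) + d = (1 - chi X Y) / 2 := by
    intro X Y
    rw [← ip_pt hε, hf]
    congr 1
    refine Finset.sum_congr rfl fun j _ => ?_
    show _ = c j * act _
    unfold act
    rw [huv]
  have hA01 : ∀ i X, A i X = 0 ∨ A i X = 1 := by
    intro i X
    simp only [A]
    split_ifs
    · exact act_eq _
    · left; rfl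
  have hsub : ∀ j, (univ.image (u j)).card ≤ (sums (L2.W j)).card := by
    intro j
    refine Finset.card_le_card ?_
    intro r hr
    obtain ⟨X, _, rfl⟩ := Finset.mem_image.1 hr
    exact sum_mem_sums _ _ fun i => hA01 i X
  have hcard : Fintype.card (Fin n → Bool) = 2 ^ n := by simp
  have key := abstract_bound (χ := chi) (N := 2 ^ n) (by positivity) hcard hcard chi_orth c d u v hF
    J (n + 1) (by rw [pow_succ]; have : 0 < 2 ^ n := by positivity
                  omega)
  by_cases hJ : 2 ^ (n - 1) ≤ ∑ j ∈ J, (sums (L2.W j)).card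
  · exact Or.inl hJ
  right
  push Not at hJ
  have h1 : ∑ j ∈ J, (univ.image (u j)).card ≤ ∑ j ∈ J, (sums (L2.W j)).card :=
    Finset.sum_le_sum fun j _ => hsub j
  have h2 : 1 + ∑ j ∈ J, (univ.image (u j)).card ≤ 2 ^ (n - 1) := by omega
  have h3 : (1 : ℝ) + ∑ j ∈ J, ((univ.image (u j)).card : ℝ) ≤ 2 ^ (n - 1) := by
    exact_mod_cast h2
  have h4 : (2 : ℝ) ^ n = 2 * 2 ^ (n - 1) := by
    rw [← pow_succ']
    congr 1
    omega
  obtain ⟨S, hS⟩ : ∃ S, S = ∑ j ∈ univ \ J, |c j| := ⟨_, rfl⟩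
  obtain ⟨Q, hQ⟩ : ∃ Q : ℝ, Q = (2 : ℝ) ^ n := ⟨_, rfl⟩
  rw [← hS] at key ⊢
  push_cast at key
  rw [← hQ] at key ⊢
  have hQ0 : 0 < Q := by rw [hQ]; positivity
  have hs0 : 0 ≤ Real.sqrt Q := Real.sqrt_nonneg _
  have h5 : Q / 2 ≤ Q - (1 + ∑ j ∈ J, ((univ.image (u j)).card : ℝ)) := by
    rw [hQ, h4]
    linarith
  have h6 : Q / 2 * Real.sqrt Q / 2 ≤ (n + 1) * Q * S := by
    refine le_trans ?_ key
    have := mul_le_mul_of_nonneg_right h5 hs0
    linarith
  have h7 : Q * Real.sqrt Q ≤ Q * (4 * (n + 1) * S) := by linarith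
  exact le_of_mul_le_mul_left h7 hQ0

end Pool.Agent.W2helper95.NN
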