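import Pool.Agent.W2helper95.NN.Robust

/-!
# The lower bound for two hidden layers with some arbitrary neurons
-/

set_option autoImplicit false

namespace Pool.Agent.W2helper95.NN

open Finset

theorem chi_sq {n : ℕ} (X Y : Fin n → Bool) : chi X Y ^ 2 = 1 := by
  unfold chi
  rw [← Finset.prod_pow]
  refine Finset.prod_eq_one fun i _ => ?_
  split_ifs <;> norm_num

theorem lower_robust (n : ℕ) (hn : 1 ≤ n) {w1 w2 : ℕ} (L1 : Layer (n + n) w1) (L2 : Layer w1 w2)
    (c : Fin w2 → ℝ) (d : ℝ) (hf : ∀ x, ip n x = ∑ j, c j * L2.out (L1.out x) j + d)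
    (J K : Finset (Fin w2)) :
    2 ^ n < 2 * 4 ^ K.card * (1 + ∑ j ∈ J, (sums (L2.W j)).card) ∨
      Real.sqrt (2 ^ n) ≤ 4 * 4 ^ K.card * (n + 1) * ∑ j ∈ univ \ (J ∪ K), |c j| := by
  classical
  obtain ⟨ε, hε, l, hl⟩ := local_points (by omega : 0 < n + n) L1
  let X0 : Fin n → Bool := fun _ => false
  let A : Fin w1 → (Fin n → Bool) → ℝ := fun i X =>
    if (l i).val < n then L1.out (pt ε (Fin.append X X0)) i else 0
  let B : Fin w1 → (Fin n → Bool) → ℝ := fun i Y =>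
    if (l i).val < n then 0 else L1.out (pt ε (Fin.append X0 Y)) i
  have hAB : ∀ X Y i, L1.out (pt ε (Fin.append X Y)) i = A i X + B i Y := by
    intro X Y i
    simp only [A, B]
    by_cases h : (l i).val < n
    · rw [if_pos h, if_pos h, add_zero]
      refine hl i _ _ ?_
      have e : l i = Fin.castAdd n ⟨(l i).val, h⟩ := by
        apply Fin.ext
        simp
      rw [e, Fin.append_left, Fin.append_left]
    · rw [if_neg h, if_neg h, zero_add]
      refine hl i _ _ ?_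
      have e : l i = Fin.natAdd n ⟨(l i).val - n, by omega⟩ := by
        apply Fin.ext
        simp
        omega
      rw [e, Fin.append_right, Fin.append_right]
  let u : Fin w2 → (Fin n → Bool) → ℝ := fun j X => ∑ i, L2.W j i * A i X
  let v : Fin w2 → (Fin n → Bool) → ℝ := fun j Y => ∑ i, L2.W j i * B i Y + L2.b j
  have huv : ∀ j X Y, ∑ i, L2.W j i * L1.out (pt ε (Fin.append X Y)) i + L2.b j =
      u j X + v j Y := by
    intro j X Y
    simp only [hAB, mul_add, Finset.sum_add_distrib, u, v]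
    ring
  have hF : ∀ X Y, ∑ j, c j * (if 0 < u j X + v j Y then 1 else 0) + d = (1 - chi X Y) / 2 := by
    intro X Y
    rw [← ip_pt hε, hf]
    congr 1
    refine Finset.sum_congr rfl fun j _ => ?_
    show _ = c j * act _
    unfold act
    rw [huv]
  have hA01 : ∀ i X, A i X = 0 ∨ A i X = 1 := by
    intro i X
    simp only [A]
    split_ifs
    · exact act_eq _
    · left; rfl
  have hsub : ∀ j, (univ.image (u j)).card ≤ (sums (L2.W j)).card := by
    intro j
    refine Finset.card_le_card ?_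
    intro r hr
    obtain ⟨X, _, rfl⟩ := Finset.mem_image.1 hr
    exact sum_mem_sums _ _ fun i => hA01 i X
  have hcard : Fintype.card (Fin n → Bool) = 2 ^ n := by simp
  have key := abstract_robust (χ := chi) (N := 2 ^ n) (by positivity) hcard hcard chi_sq chi_orth
    c d u v hF J K (n + 1) (by rw [pow_succ]; have : 0 < 2 ^ n := by positivity
                               omega)
  by_cases hJ : 2 ^ n < 2 * 4 ^ K.card * (1 + ∑ j ∈ J, (sums (L2.W j)).card)
  · exact Or.inl hJ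
  right
  have hJ' := not_lt.1 hJ
  have h1 : ∑ j ∈ J, (univ.image (u j)).card ≤ ∑ j ∈ J, (sums (L2.W j)).card :=
    Finset.sum_le_sum fun j _ => hsub j
  have h2 : 2 * 4 ^ K.card * (1 + ∑ j ∈ J, (univ.image (u j)).card) ≤ 2 ^ n :=
    (Nat.mul_le_mul_left _ (by omega)).trans hJ'
  have h3 : (2 : ℝ) * 4 ^ K.card * (1 + ∑ j ∈ J, ((univ.image (u j)).card : ℝ)) ≤ 2 ^ n := by
    exact_mod_cast h2
  obtain ⟨S, hS⟩ : ∃ S, S = ∑ j ∈ univ \ (J ∪ K), |c j| := ⟨_, rfl⟩
  obtain ⟨Q, hQ⟩ : ∃ Q : ℝ, Q = (2 : ℝ) ^ n := ⟨_, rfl⟩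
  obtain ⟨F, hFd⟩ : ∃ F : ℝ, F = (4 : ℝ) ^ K.card := ⟨_, rfl⟩
  obtain ⟨R, hR⟩ : ∃ R : ℝ, R = 1 + ∑ j ∈ J, ((univ.image (u j)).card : ℝ) := ⟨_, rfl⟩
  rw [← hS] at key ⊢
  push_cast at key
  rw [← hQ, ← hFd, ← hR] at key
  rw [← hQ, ← hFd, ← hR] at h3
  rw [← hQ, ← hFd]
  have hQ0 : 0 < Q := by rw [hQ]; positivity
  have hF0 : 0 < F := by rw [hFd]; positivity
  have hs0 : 0 ≤ Real.sqrt Q := Real.sqrt_nonneg _
  have h5 : Q / (2 * F) ≤ Q / F - R := by
    have h6 : R ≤ Q / (2 * F) := by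
      rw [le_div_iff₀ (by positivity)]
      linarith
    have h7 : Q / F = Q / (2 * F) + Q / (2 * F) := by
      field_simp
      ring
    linarith
  have h6 : Q / (2 * F) * Real.sqrt Q / 2 ≤ (n + 1) * Q * S := by
    refine le_trans ?_ key
    have := mul_le_mul_of_nonneg_right h5 hs0
    linarith
  have h7 : Q * Real.sqrt Q ≤ Q * (4 * F * (n + 1) * S) := by
    have h8 : Q / (2 * F) * Real.sqrt Q / 2 * (4 * F) = Q * Real.sqrt Q := by
      field_simp
      ring
    rw [← h8]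
    have h9 := mul_le_mul_of_nonneg_right h6 (by positivity : 0 ≤ 4 * F)
    refine h9.trans (le_of_eq ?_)
    ring
  exact le_of_mul_le_mul_left h7 hQ0

theorem restricted_robust (n : ℕ) (hn : 1 ≤ n) (B r : ℕ) (hB : 1 ≤ B) (hr : 1 ≤ r) {w1 w2 : ℕ}
    (L1 : Layer (n + n) w1) (L2 : Layer w1 w2)
    (c : Fin w2 → ℝ) (d : ℝ) (hf : ∀ x, ip n x = ∑ j, c j * L2.out (L1.out x) j + d)
    (K : Finset (Fin w2))
    (hres : ∀ j ∉ K, |c j| ≤ B ∨ (∀ i, ∃ z : ℤ, |z| ≤ B ∧ L2.W j i = z) ∨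
      (univ.image (L2.W j)).card ≤ r) :
    Real.sqrt (2 ^ n) ≤ 4 * 4 ^ K.card * (n + 1) * (B * w2 * (w1 + 1) ^ r) := by
  classical
  have hw : w1 + 1 ≤ (w1 + 1) ^ r := Nat.le_self_pow (by omega) _
  have hw1 : 1 ≤ (w1 + 1) ^ r := Nat.one_le_pow _ _ (by omega)
  have hn0 : (1 : ℝ) ≤ n := by exact_mod_cast hn
  have hP0 : (0 : ℝ) ≤ B * w2 * (w1 + 1) ^ r := by positivity
  rcases lower_robust n hn L1 L2 c d hf (univ.filter fun j => j ∉ K ∧ ¬ |c j| ≤ B) K with h | h
  · have h1 : ∀ j ∈ univ.filter (fun j => j ∉ K ∧ ¬ |c j| ≤ B), (sums (L2.W j)).card ≤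
        2 * B * (w1 + 1) ^ r := by
      intro j hj
      have hj' := (Finset.mem_filter.1 hj).2
      rcases hres j hj'.1 with h2 | h2 | h2
      · exact absurd h2 hj'.2
      · refine (sums_card_int _ B h2).trans ?_
        calc 2 * B * w1 + 1 ≤ 2 * B * (w1 + 1) := by nlinarith
          _ ≤ 2 * B * (w1 + 1) ^ r := Nat.mul_le_mul_left _ hw
      · refine (sums_card_few _ r h2).trans ?_
        calc (w1 + 1) ^ r = 1 * (w1 + 1) ^ r := (one_mul _).symm
          _ ≤ 2 * B * (w1 + 1) ^ r := Nat.mul_le_mul_right _ (by omega)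
    have h2 : ∑ j ∈ univ.filter (fun j => j ∉ K ∧ ¬ |c j| ≤ B), (sums (L2.W j)).card ≤
        w2 * (2 * B * (w1 + 1) ^ r) := by
      refine (Finset.sum_le_card_nsmul _ _ _ h1).trans ?_
      rw [smul_eq_mul]
      refine Nat.mul_le_mul_right _ ?_
      refine (Finset.card_le_univ _).trans ?_
      rw [Fintype.card_fin]
    obtain ⟨P, hP⟩ : ∃ P, P = (w1 + 1) ^ r := ⟨_, rfl⟩
    have hw2 : 1 ≤ w2 := by
      by_contra hcon
      have h0 : w2 = 0 := by omega
      subst h0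
      have hK : K.card = 0 := by
        rw [Finset.card_eq_zero]
        exact Finset.eq_empty_of_isEmpty K
      rw [hK] at h
      have h3 : ∑ j ∈ univ.filter (fun j => j ∉ K ∧ ¬ |c j| ≤ B), (sums (L2.W j)).card = 0 := by
        simp
      rw [h3] at h
      have h4 : 2 ^ 1 ≤ 2 ^ n := Nat.pow_le_pow_right (by norm_num) hn
      omega
    have h3 : 2 ^ n < 2 * 4 ^ K.card * (1 + w2 * (2 * B * P)) := by
      refine lt_of_lt_of_le h (Nat.mul_le_mul_left _ ?_)
      rw [hP]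
      omega
    rw [← hP] at hw1
    have h4 : 1 + w2 * (2 * B * P) ≤ 3 * (B * w2 * P) := by
      have h5 : 1 ≤ B * w2 * P := Nat.mul_pos (Nat.mul_pos hB hw2) hw1
      have h6 : w2 * (2 * B * P) = 2 * (B * w2 * P) := by ring
      omega
    have h5 : 2 ^ n ≤ 6 * (4 ^ K.card * (B * w2 * P)) := by
      refine h3.le.trans ?_
      have := Nat.mul_le_mul_left (2 * 4 ^ K.card) h4
      refine this.trans (le_of_eq ?_)
      ring
    have h6 : (2 : ℝ) ^ n ≤ 6 * (4 ^ K.card * (B * w2 * P)) := by exact_mod_cast h5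
    have h7 : (1 : ℝ) ≤ 2 ^ n := one_le_pow₀ (by norm_num)
    have h8 : Real.sqrt (2 ^ n) ≤ 2 ^ n := by
      rw [Real.sqrt_le_left (by positivity)]
      nlinarith
    have hPr : ((w1 : ℝ) + 1) ^ r = P := by
      rw [hP]
      push_cast
      rfl
    rw [hPr]
    have h9 : (0 : ℝ) ≤ 4 ^ K.card * (B * w2 * P) := by positivity
    refine (h8.trans h6).trans ?_
    have h10 : 6 * (4 ^ K.card * (B * w2 * (P : ℝ))) ≤
        4 * (n + 1) * (4 ^ K.card * (B * w2 * P)) := by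
      refine mul_le_mul_of_nonneg_right ?_ h9
      linarith
    refine h10.trans (le_of_eq ?_)
    ring
  · refine h.trans ?_
    have h1 : ∑ j ∈ univ \ ((univ.filter fun j => j ∉ K ∧ ¬ |c j| ≤ B) ∪ K), |c j| ≤ w2 * B := by
      have h2 : ∀ j ∈ univ \ ((univ.filter fun j => j ∉ K ∧ ¬ |c j| ≤ B) ∪ K), |c j| ≤ B := by
        intro j hj
        by_contra h3
        have h4 := (Finset.mem_sdiff.1 hj).2
        refine h4 (Finset.mem_union.2 ?_)
        by_cases h5 : j ∈ K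
        · exact Or.inr h5
        · exact Or.inl (Finset.mem_filter.2 ⟨Finset.mem_univ _, h5, h3⟩)
      refine (Finset.sum_le_card_nsmul _ _ _ h2).trans ?_
      rw [nsmul_eq_mul]
      refine mul_le_mul_of_nonneg_right ?_ (Nat.cast_nonneg _)
      have := Finset.card_le_univ (univ \ ((univ.filter fun j => j ∉ K ∧ ¬ |c j| ≤ B) ∪ K))
      rw [Fintype.card_fin] at this
      exact_mod_cast this
    have h2 : (w2 : ℝ) * B ≤ B * w2 * (w1 + 1) ^ r := by
      have h3 : (1 : ℝ) ≤ (w1 + 1) ^ r := by exact_mod_cast hw1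
      have h4 : (0 : ℝ) ≤ B * w2 := by positivity
      nlinarith
    exact mul_le_mul_of_nonneg_left (h1.trans h2) (by positivity)

end Pool.Agent.W2helper95.NN
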