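import Pool.Agent.W2helper95.NN.Infl

/-!
# Restrictions that make most threshold functions constant
-/

set_option autoImplicit false

namespace Pool.Agent.W2helper95.NN

open Finset

section

variable {m b : ℕ}

/-- in every block one coordinate is free -/
def sub (Z : Fin m × Fin b → Bool) (i : Fin m → Fin b) (y : Fin m → Bool) :
    Fin m × Fin b → Bool := fun q => if q.2 = i q.1 then y q.1 else Z q

/-- values of the free coordinates that maximise the linear form -/
noncomputable def top (a : Fin m × Fin b → ℝ) (i : Fin m → Fin b) : Fin m → Bool :=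
  fun r => decide (0 ≤ a (r, i r))

/-- values of the free coordinates that minimise the linear form -/
noncomputable def bot (a : Fin m × Fin b → ℝ) (i : Fin m → Fin b) : Fin m → Bool :=
  fun r => !(top a i r)

/-- a path from the minimum to the maximum -/
noncomputable def path (a : Fin m × Fin b → ℝ) (i : Fin m → Fin b) (k : ℕ) : Fin m → Bool :=
  fun r => if r.val < k then top a i r else bot a i r

theorem act_mono {s t : ℝ} (h : s ≤ t) : act s ≤ act t := by
  unfold act
  split_ifs with h1 h2 h2
  · exact le_refl _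
  · exact absurd (lt_of_lt_of_le h1 h) h2
  · norm_num
  · exact le_refl _

theorem sub_le {H : (Fin m × Fin b → Bool) → ℝ} (a : Fin m × Fin b → ℝ) (β : ℝ)
    (hH : ∀ Z, H Z = act (∑ l, a l * bt (Z l) + β)) (Z : Fin m × Fin b → Bool)
    (i : Fin m → Fin b) (y y' : Fin m → Bool)
    (h : ∀ r, a (r, i r) * bt (y r) ≤ a (r, i r) * bt (y' r)) :
    H (sub Z i y) ≤ H (sub Z i y') := by
  rw [hH, hH]
  refine act_mono (add_le_add_left (Finset.sum_le_sum fun q _ => ?_) _)
  unfold sub
  by_cases hq : q.2 = i q.1
  · rw [if_pos hq, if_pos hq]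
    have h1 := h q.1
    rw [← hq] at h1
    exact h1
  · rw [if_neg hq, if_neg hq]

theorem bot_le (a : Fin m × Fin b → ℝ) (i : Fin m → Fin b) (y : Fin m → Bool) (r : Fin m) :
    a (r, i r) * bt (bot a i r) ≤ a (r, i r) * bt (y r) := by
  unfold bot top bt
  by_cases h : 0 ≤ a (r, i r)
  · cases y r <;> simp [h]
  · have h' := not_le.1 h
    cases y r <;> simp [h, h'.le]

theorem le_top' (a : Fin m × Fin b → ℝ) (i : Fin m → Fin b) (y : Fin m → Bool) (r : Fin m) :
    a (r, i r) * bt (y r) ≤ a (r, i r) * bt (top a i r) := by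
  unfold top bt
  by_cases h : 0 ≤ a (r, i r)
  · cases y r <;> simp [h]
  · have h' := not_le.1 h
    cases y r <;> simp [h, h'.le]

/-- one if the restricted gate is not constant, zero if it is -/
noncomputable def spread (a : Fin m × Fin b → ℝ) (H : (Fin m × Fin b → Bool) → ℝ)
    (Z : Fin m × Fin b → Bool) (i : Fin m → Fin b) : ℝ :=
  H (sub Z i (top a i)) - H (sub Z i (bot a i))

theorem spread_zero {H : (Fin m × Fin b → Bool) → ℝ} (a : Fin m × Fin b → ℝ) (β : ℝ)
    (hH : ∀ Z, H Z = act (∑ l, a l * bt (Z l) + β)) (Z : Fin m × Fin b → Bool)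
    (i : Fin m → Fin b) (h : spread a H Z i = 0) (y : Fin m → Bool) :
    H (sub Z i y) = H (sub Z i (bot a i)) := by
  have h1 := sub_le a β hH Z i (bot a i) y (bot_le a i y)
  have h2 := sub_le a β hH Z i y (top a i) (le_top' a i y)
  unfold spread at h
  linarith

theorem spread_01 {H : (Fin m × Fin b → Bool) → ℝ} (a : Fin m × Fin b → ℝ) (β : ℝ)
    (hH : ∀ Z, H Z = act (∑ l, a l * bt (Z l) + β)) (Z : Fin m × Fin b → Bool)
    (i : Fin m → Fin b) : spread a H Z i = 0 ∨ spread a H Z i = 1 := by
  have h1 := sub_le a β hH Z i (bot a i) (top a i) (bot_le a i _)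
  unfold spread
  have h01 : ∀ Z, H Z = 0 ∨ H Z = 1 := fun Z => by rw [hH]; exact act_eq _
  rcases h01 (sub Z i (top a i)) with h2 | h2 <;> rcases h01 (sub Z i (bot a i)) with h3 | h3
  · left; rw [h2, h3, sub_zero]
  · rw [h2, h3] at h1
    norm_num at h1
  · right; rw [h2, h3, sub_zero]
  · left; rw [h2, h3, sub_self]

/-- the gate with all free coordinates outside block `k` fixed -/
noncomputable def fixed (a : Fin m × Fin b → ℝ) (H : (Fin m × Fin b → Bool) → ℝ) (k : Fin m)
    (i : Fin m → Fin b) : (Fin m × Fin b → Bool) → ℝ :=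
  fun Z => H fun q => if q.1 ≠ k ∧ q.2 = i q.1 then path a i k.val q.1 else Z q

theorem fixed_lt {H : (Fin m × Fin b → Bool) → ℝ} (a : Fin m × Fin b → ℝ) (β : ℝ)
    (hH : ∀ Z, H Z = act (∑ l, a l * bt (Z l) + β)) (k : Fin m) (i : Fin m → Fin b)
    (Z : Fin m × Fin b → Bool) :
    fixed a H k i Z = act (∑ q, (if q.1 ≠ k ∧ q.2 = i q.1 then 0 else a q) * bt (Z q) +
      (∑ q : Fin m × Fin b, (if q.1 ≠ k ∧ q.2 = i q.1 then a q * bt (path a i k.val q.1) else 0) +
        β)) := by
  unfold fixed
  rw [hH, ← add_assoc, ← Finset.sum_add_distrib]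
  congr 2
  refine Finset.sum_congr rfl fun q _ => ?_
  split_ifs <;> ring

theorem fixed_update (a : Fin m × Fin b → ℝ) (H : (Fin m × Fin b → Bool) → ℝ) (k : Fin m)
    (i : Fin m → Fin b) (j : Fin b) :
    fixed a H k (Function.update i k j) = fixed a H k i := by
  funext Z
  unfold fixed
  congr 1
  funext q
  by_cases hq : q.1 = k
  · simp [hq]
  · have e1 : Function.update i k j q.1 = i q.1 := Function.update_of_ne hq _ _
    have e2 : path a (Function.update i k j) k.val q.1 = path a i k.val q.1 := by
      unfold path bot top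
      rw [e1]
    rw [e1, e2]

theorem sub_fixed (a : Fin m × Fin b → ℝ) (H : (Fin m × Fin b → Bool) → ℝ) (k : Fin m)
    (i : Fin m → Fin b) (Z : Fin m × Fin b → Bool) (t : Bool) :
    H (sub Z i (Function.update (path a i k.val) k t)) =
      fixed a H k i (Function.update Z (k, i k) t) := by
  unfold fixed sub
  congr 1
  funext q
  obtain ⟨q1, q2⟩ := q
  by_cases h1 : q1 = k
  · subst h1
    by_cases h2 : q2 = i q1
    · subst h2
      simp
    · have h3 : ((q1, q2) : Fin m × Fin b) ≠ (q1, i q1) := by
        intro h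
        exact h2 (Prod.ext_iff.1 h).2
      simp [h2]
  · have h3 : ((q1, q2) : Fin m × Fin b) ≠ (k, i k) := by
      intro h
      exact h1 (Prod.ext_iff.1 h).1
    simp only [Function.update_of_ne h3, Function.update_of_ne h1]
    by_cases h2 : q2 = i q1 <;> simp [h1, h2]

theorem spread_le (a : Fin m × Fin b → ℝ) (H : (Fin m × Fin b → Bool) → ℝ)
    (Z : Fin m × Fin b → Bool) (i : Fin m → Fin b) :
    spread a H Z i ≤ ∑ k : Fin m, cut (fixed a H k i) (k, i k) Z := by
  have h0 : path a i 0 = bot a i := by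
    funext r
    unfold path
    simp
  have hm : path a i m = top a i := by
    funext r
    unfold path
    rw [if_pos r.isLt]
  have h1 : spread a H Z i = ∑ k ∈ range m, (H (sub Z i (path a i (k + 1))) -
      H (sub Z i (path a i k))) := by
    rw [Finset.sum_range_sub (fun k => H (sub Z i (path a i k))), h0, hm]
    rfl
  rw [h1, ← Fin.sum_univ_eq_sum_range (fun k => H (sub Z i (path a i (k + 1))) -
      H (sub Z i (path a i k))) m]
  refine Finset.sum_le_sum fun k _ => ?_
  have e1 : path a i (k.val + 1) = Function.update (path a i k.val) k (top a i k) := by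
    funext r
    by_cases hr : r = k
    · subst hr
      rw [Function.update_self]
      unfold path
      rw [if_pos (Nat.lt_succ_self _)]
    · rw [Function.update_of_ne hr]
      unfold path
      have : r.val ≠ k.val := fun h => hr (Fin.ext h)
      by_cases h2 : r.val < k.val
      · rw [if_pos h2, if_pos (by omega)]
      · rw [if_neg h2, if_neg (by omega)]
  have e2 : path a i k.val = Function.update (path a i k.val) k (bot a i k) := by
    funext r
    by_cases hr : r = k
    · subst hr
      rw [Function.update_self]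
      unfold path
      rw [if_neg (lt_irrefl _)]
    · rw [Function.update_of_ne hr]
  have e3 : H (sub Z i (path a i k.val)) =
      fixed a H k i (Function.update Z (k, i k) (bot a i k)) := by
    rw [← sub_fixed a H k i Z (bot a i k), ← e2]
  rw [e1, sub_fixed a H k i Z (top a i k), e3]
  unfold cut bot
  cases top a i k
  · simp only [Bool.not_false]
    rw [abs_sub_comm]
    exact le_abs_self _
  · simp only [Bool.not_true]
    exact le_abs_self _

/-- The restrictions that leave a gate alive. -/
theorem spread_sum {B : ℕ} (hB : 0 < B) (hb : b = B ^ 2) {H : (Fin m × Fin b → Bool) → ℝ}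
    (a : Fin m × Fin b → ℝ) (β : ℝ) (hH : ∀ Z, H Z = act (∑ l, a l * bt (Z l) + β)) :
    B * ∑ i : Fin m → Fin b, ∑ Z, spread a H Z i ≤ m * (b ^ m * 2 ^ (m * b)) := by
  classical
  have hB' : (0 : ℝ) < B := by exact_mod_cast hB
  have key : ∀ k : Fin m, B * ∑ i : Fin m → Fin b, ∑ Z, cut (fixed a H k i) (k, i k) Z ≤
      b ^ m * 2 ^ (m * b) := by
    intro k
    obtain ⟨ψ, hψ⟩ : ∃ ψ : (Fin m → Fin b) → ℝ, ψ = fun i =>
      ∑ Z, cut (fixed a H k i) (k, i k) Z := ⟨_, rfl⟩
    have e1 : ∑ i : Fin m → Fin b, ∑ j : Fin b, ψ (Function.update i k j) = b * ∑ i, ψ i := by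
      rw [← Finset.sum_product' (s := univ) (t := univ)
        (f := fun (i : Fin m → Fin b) (j : Fin b) => ψ (Function.update i k j))]
      have e2 : b * ∑ i, ψ i = ∑ i : Fin m → Fin b, ∑ _j : Fin b, ψ i := by
        rw [Finset.mul_sum]
        refine Finset.sum_congr rfl fun i _ => ?_
        simp
      rw [e2, ← Finset.sum_product' (s := univ) (t := univ)
        (f := fun (i : Fin m → Fin b) (_j : Fin b) => ψ i)]
      refine Finset.sum_nbij' (fun p => (Function.update p.1 k p.2, p.1 k))
        (fun p => (Function.update p.1 k p.2, p.1 k)) ?_ ?_ ?_ ?_ ?_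
      · intro p _; simp
      · intro p _; simp
      · intro p _; simp
      · intro p _; simp
      · intro p _; rfl
    have e3 : ∀ i : Fin m → Fin b, ∑ j : Fin b, ψ (Function.update i k j) ≤ B * 2 ^ (m * b) := by
      intro i
      have e4 : ∀ j : Fin b, ψ (Function.update i k j) = ∑ Z, cut (fixed a H k i) (k, j) Z := by
        intro j
        rw [hψ]
        simp only [fixed_update, Function.update_self]
      simp only [e4]
      have e5 := cutsum (H := fixed a H k i) _ _ (fixed_lt a β hH k i)
        ((univ : Finset (Fin b)).image fun j => (k, j)) B hB (by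
          refine Finset.card_image_le.trans ?_
          rw [Finset.card_univ, Fintype.card_fin, hb])
      rw [Finset.sum_image (by
        intro j _ j' _ h
        exact (Prod.ext_iff.1 h).2)] at e5
      rw [Fintype.card_prod, Fintype.card_fin, Fintype.card_fin] at e5
      exact e5
    have e6 : b * ∑ i, ψ i ≤ b ^ m * (B * 2 ^ (m * b)) := by
      rw [← e1]
      refine (Finset.sum_le_sum fun i _ => e3 i).trans ?_
      rw [Finset.sum_const, Finset.card_univ, Fintype.card_fun, Fintype.card_fin, Fintype.card_fin,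
        nsmul_eq_mul]
      push_cast
      exact le_refl _
    have hbB : (b : ℝ) = B * B := by
      rw [hb]
      push_cast
      ring
    have e7 : B * (B * ∑ i, ψ i) ≤ B * (b ^ m * 2 ^ (m * b)) := by
      rw [← mul_assoc, ← hbB]
      refine e6.trans (le_of_eq ?_)
      ring
    have e8 := le_of_mul_le_mul_left e7 hB'
    rw [hψ] at e8
    exact e8
  calc B * ∑ i : Fin m → Fin b, ∑ Z, spread a H Z i
      ≤ B * ∑ i : Fin m → Fin b, ∑ Z, ∑ k : Fin m, cut (fixed a H k i) (k, i k) Z := by
        refine mul_le_mul_of_nonneg_left ?_ hB'.le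
        exact Finset.sum_le_sum fun i _ => Finset.sum_le_sum fun Z _ => spread_le a H Z i
    _ = ∑ k : Fin m, B * ∑ i : Fin m → Fin b, ∑ Z, cut (fixed a H k i) (k, i k) Z := by
        rw [← Finset.mul_sum]
        congr 1
        have e9 : ∀ i : Fin m → Fin b, ∑ Z, ∑ k : Fin m, cut (fixed a H k i) (k, i k) Z =
            ∑ k : Fin m, ∑ Z, cut (fixed a H k i) (k, i k) Z := fun i => Finset.sum_comm
        simp only [e9]
        exact Finset.sum_comm
    _ ≤ ∑ _k : Fin m, (b : ℝ) ^ m * 2 ^ (m * b) := Finset.sum_le_sum fun k _ => key k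
    _ = m * (b ^ m * 2 ^ (m * b)) := by simp

/-- Some restriction leaves at most `w m / B` gates alive. -/
theorem exists_restriction {B w : ℕ} (hB : 0 < B) (hb : b = B ^ 2)
    (H : Fin w → (Fin m × Fin b → Bool) → ℝ) (a : Fin w → Fin m × Fin b → ℝ) (β : Fin w → ℝ)
    (hH : ∀ j Z, H j Z = act (∑ l, a j l * bt (Z l) + β j)) :
    ∃ (Z : Fin m × Fin b → Bool) (i : Fin m → Fin b),
      B * ∑ j, spread (a j) (H j) Z i ≤ w * m := by
  classical
  have hbpos : 0 < b := by rw [hb]; positivity
  have h1 : ∑ p : (Fin m → Fin b) × (Fin m × Fin b → Bool),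
      B * ∑ j, spread (a j) (H j) p.2 p.1 ≤
      ∑ _p : (Fin m → Fin b) × (Fin m × Fin b → Bool), ((w : ℝ) * m) := by
    rw [Fintype.sum_prod_type]
    have e1 : ∑ i : Fin m → Fin b, ∑ Z, B * ∑ j, spread (a j) (H j) Z i =
        ∑ j, B * ∑ i : Fin m → Fin b, ∑ Z, spread (a j) (H j) Z i := by
      simp only [Finset.mul_sum]
      rw [Finset.sum_comm]
      have e2 : ∀ Z, ∑ i : Fin m → Fin b, ∑ j, (B : ℝ) * spread (a j) (H j) Z i =
          ∑ j, ∑ i : Fin m → Fin b, (B : ℝ) * spread (a j) (H j) Z i := fun Z => Finset.sum_comm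
      simp only [e2]
      rw [Finset.sum_comm]
      refine Finset.sum_congr rfl fun j _ => ?_
      rw [Finset.sum_comm]
    rw [e1]
    refine (Finset.sum_le_sum fun j _ => spread_sum hB hb (a j) (β j) (hH j)).trans ?_
    simp only [Finset.sum_const, Finset.card_univ, Fintype.card_fin, nsmul_eq_mul,
      Fintype.card_prod, Fintype.card_fun, Fintype.card_bool]
    push_cast
    refine le_of_eq ?_
    ring
  have hne : (univ : Finset ((Fin m → Fin b) × (Fin m × Fin b → Bool))).Nonempty := by
    refine ⟨(fun _ => ⟨0, hbpos⟩, fun _ => false), Finset.mem_univ _⟩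
  obtain ⟨p, _, hp⟩ := Finset.exists_le_of_sum_le hne h1
  exact ⟨p.2, p.1, hp⟩

end

end Pool.Agent.W2helper95.NN
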