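import Pool.Agent.W2helper95.NN.Cor

/-!
# A few arbitrary neurons do not help
-/

set_option autoImplicit false

namespace Pool.Agent.W2helper95.NN

open Finset

section

variable {α β : Type} [Fintype α] [Fintype β] [DecidableEq α] [DecidableEq β]

/-- the threshold matrix of `u` and `v` -/
noncomputable def thr (u : α → ℝ) (v : β → ℝ) (X : α) (Y : β) : ℝ := if 0 < u X + v Y then 1 else 0

/-- one gate is constant on a large rectangle -/
theorem half_rect (u : α → ℝ) (v : β → ℝ) (A : Finset α) (B : Finset β) (hB : B.Nonempty) :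
    ∃ A' ⊆ A, ∃ B' ⊆ B, A.card ≤ 2 * A'.card ∧ B.card ≤ 2 * B'.card ∧
      ∃ κ : ℝ, ∀ X ∈ A', ∀ Y ∈ B', thr u v X Y = κ := by
  classical
  let f : β → ℕ := fun Y => (A.filter fun X => 0 < u X + v Y).card
  let B1 := B.filter fun Y => A.card ≤ 2 * f Y
  let B0 := B.filter fun Y => ¬ A.card ≤ 2 * f Y
  have hsum : B1.card + B0.card = B.card := Finset.card_filter_add_card_filter_not _
  by_cases h1 : B.card ≤ 2 * B1.card
  · have hne : B1.Nonempty := by
      rw [← Finset.card_pos]
      have := Finset.card_pos.2 hB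
      omega
    obtain ⟨Y0, hY0, hmin⟩ := Finset.exists_min_image B1 v hne
    refine ⟨A.filter fun X => 0 < u X + v Y0, Finset.filter_subset _ _, B1,
      Finset.filter_subset _ _, (Finset.mem_filter.1 hY0).2, h1, 1, fun X hX Y hY => ?_⟩
    unfold thr
    rw [if_pos]
    have h2 := (Finset.mem_filter.1 hX).2
    have h3 := hmin Y hY
    linarith
  · have h1' : B.card ≤ 2 * B0.card := by omega
    have hne : B0.Nonempty := by
      rw [← Finset.card_pos]
      have := Finset.card_pos.2 hB
      omega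
    obtain ⟨Y0, hY0, hmax⟩ := Finset.exists_max_image B0 v hne
    refine ⟨A.filter fun X => ¬ 0 < u X + v Y0, Finset.filter_subset _ _, B0,
      Finset.filter_subset _ _, ?_, h1', 0, fun X hX Y hY => ?_⟩
    · have h2 := (Finset.mem_filter.1 hY0).2
      have h3 : (A.filter fun X => 0 < u X + v Y0).card +
          (A.filter fun X => ¬ 0 < u X + v Y0).card = A.card :=
        Finset.card_filter_add_card_filter_not _
      have h4 : f Y0 = (A.filter fun X => 0 < u X + v Y0).card := rfl
      omega
    · unfold thr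
      rw [if_neg]
      have h2 := (Finset.mem_filter.1 hX).2
      have h3 := hmax Y hY
      intro h4
      exact h2 (by linarith)

/-- finitely many gates are constant on a large rectangle -/
theorem rects {w : ℕ} (u : Fin w → α → ℝ) (v : Fin w → β → ℝ) (hα : 0 < Fintype.card α)
    (hβ : 0 < Fintype.card β) (K : Finset (Fin w)) :
    ∃ (A : Finset α) (B : Finset β), Fintype.card α ≤ 2 ^ K.card * A.card ∧
      Fintype.card β ≤ 2 ^ K.card * B.card ∧
      ∀ j ∈ K, ∃ κ : ℝ, ∀ X ∈ A, ∀ Y ∈ B, thr (u j) (v j) X Y = κ := by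
  classical
  induction K using Finset.induction_on with
  | empty => exact ⟨univ, univ, by simp, by simp, by simp⟩
  | insert a K ha ih =>
    obtain ⟨A, B, hA, hB, hK⟩ := ih
    have hBne : B.Nonempty := by
      rw [← Finset.card_pos]
      by_contra h
      have : B.card = 0 := by omega
      rw [this, mul_zero] at hB
      omega
    obtain ⟨A', hA', B', hB', h1, h2, κ, h3⟩ := half_rect (u a) (v a) A B hBne
    refine ⟨A', B', ?_, ?_, ?_⟩
    · rw [Finset.card_insert_of_notMem ha, pow_succ]
      have := Nat.mul_le_mul_left (2 ^ K.card) h1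
      calc Fintype.card α ≤ 2 ^ K.card * A.card := hA
        _ ≤ 2 ^ K.card * (2 * A'.card) := this
        _ = 2 ^ K.card * 2 * A'.card := by ring
    · rw [Finset.card_insert_of_notMem ha, pow_succ]
      have := Nat.mul_le_mul_left (2 ^ K.card) h2
      calc Fintype.card β ≤ 2 ^ K.card * B.card := hB
        _ ≤ 2 ^ K.card * (2 * B'.card) := this
        _ = 2 ^ K.card * 2 * B'.card := by ring
    · intro j hj
      rcases Finset.mem_insert.1 hj with h | h
      · subst h
        exact ⟨κ, h3⟩
      · obtain ⟨κ', h4⟩ := hK j h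
        exact ⟨κ', fun X hX Y hY => h4 X (hA' hX) Y (hB' hY)⟩

/-- The abstract lower bound with arbitrary gates. -/
theorem abstract_robust {χ : α → β → ℝ} {N : ℕ} (hN : 0 < N)
    (hα : Fintype.card α = N) (hβ : Fintype.card β = N) (hχ1 : ∀ X Y, χ X Y ^ 2 = 1)
    (hχ : ∀ X X', ∑ Y, χ X Y * χ X' Y = if X = X' then (N : ℝ) else 0)
    {w : ℕ} (c : Fin w → ℝ) (d : ℝ) (u : Fin w → α → ℝ) (v : Fin w → β → ℝ)
    (hF : ∀ X Y, ∑ j, c j * (if 0 < u j X + v j Y then 1 else 0) + d = (1 - χ X Y) / 2)
    (J K : Finset (Fin w)) (n : ℕ) (hn : N < 2 ^ n) :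
    ((N : ℝ) / 4 ^ K.card - (1 + ∑ j ∈ J, ((univ.image (u j)).card : ℝ))) * Real.sqrt N / 2 ≤
      n * N * ∑ j ∈ univ \ (J ∪ K), |c j| := by
  classical
  obtain ⟨A, B, hA, hB, hK⟩ := rects u v (by omega) (by omega) K
  rw [hα] at hA
  rw [hβ] at hB
  -- the functionals
  let S : Finset (Σ _ : Fin w, ℝ) := J.sigma fun j => univ.image (u j)
  let κ := Option ({p // p ∈ S} ⊕ {X // X ∈ univ \ A})
  let W : κ → α → ℝ := fun o X =>
    match o with
    | none => 1
    | some (Sum.inl q) => if u q.1.1 X = q.1.2 then 1 else 0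
    | some (Sum.inr q) => if X = q.1 then 1 else 0
  obtain ⟨m, hm, g, hg, hker⟩ := ker_onf W
  have hAc : (univ \ A).card = N - A.card := by
    rw [Finset.card_sdiff_of_subset (Finset.subset_univ A), Finset.card_univ, hα]
  have hAN : A.card ≤ N := by
    rw [← hα]
    exact Finset.card_le_univ A
  have hBN : B.card ≤ N := by
    rw [← hβ]
    exact Finset.card_le_univ B
  have hκ : Fintype.card κ = 1 + (∑ j ∈ J, (univ.image (u j)).card) + (N - A.card) := by
    rw [← Nat.card_eq_fintype_card]
    have h1 : Nat.card κ = Nat.card ({p // p ∈ S} ⊕ {X // X ∈ univ \ A}) + 1 :=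
      Finite.card_option
    have h2 : Nat.card {p // p ∈ S} = S.card := by
      rw [Nat.card_eq_fintype_card, Fintype.card_coe]
    have h3 : Nat.card {X // X ∈ univ \ A} = (univ \ A).card := by
      rw [Nat.card_eq_fintype_card, Fintype.card_coe]
    have h4 : S.card = ∑ j ∈ J, (univ.image (u j)).card := Finset.card_sigma _ _
    rw [h1, Nat.card_sum, h2, h3, h4, hAc]
    omega
  have hone : ∀ k, ∑ X, g k X = 0 := by
    intro k
    have := hker k none
    simpa [W] using this
  have hout : ∀ k X, X ∉ A → g k X = 0 := by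
    intro k X hX
    have h1 := hker k (some (Sum.inr ⟨X, Finset.mem_sdiff.2 ⟨Finset.mem_univ X, hX⟩⟩))
    have h2 : ∑ X', g k X' * (if X' = X then (1 : ℝ) else 0) = 0 := h1
    simpa using h2
  have hlev : ∀ k, ∀ j ∈ J, ∀ φ : ℝ → ℝ, ∑ X, g k X * φ (u j X) = 0 := by
    intro k j hj φ
    have h1 : ∀ X, g k X * φ (u j X) =
        ∑ r ∈ univ.image (u j), φ r * (g k X * (if u j X = r then 1 else 0)) := by
      intro X
      rw [Finset.sum_eq_single (u j X)]
      · simp
        ring
      · intro r _ hr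
        have : u j X ≠ r := fun h => hr h.symm
        simp [this]
      · intro h
        exact absurd (Finset.mem_image_of_mem _ (Finset.mem_univ X)) h
    simp only [h1]
    rw [Finset.sum_comm]
    refine Finset.sum_eq_zero fun r hr => ?_
    rw [← Finset.mul_sum]
    have h2 := hker k (some (Sum.inl ⟨⟨j, r⟩, Finset.mem_sigma.2 ⟨hj, hr⟩⟩))
    have h3 : ∑ X, g k X * (if u j X = r then (1 : ℝ) else 0) = 0 := h2
    rw [h3, mul_zero]
  have hN' : (0 : ℝ) < N := by exact_mod_cast hN
  obtain ⟨h, hh⟩ : ∃ h, h = dual χ N g := ⟨_, rfl⟩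
  have hhO : ONF h := by rw [hh]; exact dual_onf hN' hχ hg
  have hss : Real.sqrt N * Real.sqrt N = N := Real.mul_self_sqrt hN'.le
  have hs0 : Real.sqrt N ≠ 0 := (Real.sqrt_pos.2 hN').ne'
  have hdual : ∀ k Y, ∑ X, g k X * χ X Y = Real.sqrt N * h k Y := by
    intro k Y
    rw [hh]
    unfold dual
    field_simp
  obtain ⟨bB, hbB⟩ : ∃ bB : β → ℝ, bB = fun Y => if Y ∈ B then 1 else 0 := ⟨_, rfl⟩
  -- vanishing pairings
  have hp0 : ∀ t : α → β → ℝ, (∀ k Y, Y ∈ B → ∑ X, g k X * t X Y = 0) →
      pair g h (fun X Y => t X Y * bB Y) = 0 := by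
    intro t ht
    unfold pair
    refine Finset.sum_eq_zero fun k _ => ?_
    rw [Finset.sum_comm]
    refine Finset.sum_eq_zero fun Y _ => ?_
    have e : ∀ X, g k X * (t X Y * bB Y) * h k Y = (g k X * t X Y) * (bB Y * h k Y) := by
      intro X
      ring
    simp only [e]
    rw [← Finset.sum_mul]
    by_cases hY : Y ∈ B
    · rw [ht k Y hY, zero_mul]
    · have : bB Y = 0 := by rw [hbB]; simp [hY]
      rw [this, zero_mul, mul_zero]
  have hpc : ∀ t : ℝ, pair g h (fun _ Y => t * bB Y) = 0 := fun t =>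
    hp0 (fun _ _ => t) fun k Y _ => by rw [← Finset.sum_mul, hone k, zero_mul]
  have hpJ : ∀ j ∈ J, pair g h (fun X Y => thr (u j) (v j) X Y * bB Y) = 0 := by
    intro j hj
    refine hp0 _ fun k Y _ => ?_
    exact hlev k j hj (fun r => if 0 < r + v j Y then 1 else 0)
  have hpK : ∀ j ∈ K, pair g h (fun X Y => thr (u j) (v j) X Y * bB Y) = 0 := by
    intro j hj
    obtain ⟨κ', h1⟩ := hK j hj
    refine hp0 _ fun k Y hY => ?_
    have e : ∀ X, g k X * thr (u j) (v j) X Y = g k X * κ' := by
      intro X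
      by_cases hX : X ∈ A
      · rw [h1 X hX Y hY]
      · rw [hout k X hX, zero_mul, zero_mul]
    simp only [e]
    rw [← Finset.sum_mul, hone k, zero_mul]
  have hstair : ∀ j, |pair g h (fun X Y => thr (u j) (v j) X Y * bB Y)| ≤ n * N := by
    intro j
    obtain ⟨M, hM⟩ : ∃ M, M = ∑ X, |u j X| := ⟨_, rfl⟩
    have hMX : ∀ X, u j X ≤ M := by
      intro X
      rw [hM]
      exact (le_abs_self _).trans
        (Finset.single_le_sum (f := fun X => |u j X|) (fun _ _ => abs_nonneg _) (Finset.mem_univ X))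
    have h1 := stair hg hhO (u j) (fun Y => if Y ∈ B then v j Y else -M) n (by rw [hα]; exact hn)
    rw [hα, hβ] at h1
    have h2 : (n : ℝ) * (((N : ℝ) + N) / 2) = n * N := by ring
    rw [h2] at h1
    have e : (fun X Y => thr (u j) (v j) X Y * bB Y) =
        fun X Y => if 0 < u j X + (if Y ∈ B then v j Y else -M) then (1 : ℝ) else 0 := by
      funext X Y
      unfold thr
      rw [hbB]
      by_cases hY : Y ∈ B
      · simp [hY]
      · have : ¬ 0 < u j X + -M := by
          have := hMX X
          linarith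
        simp [hY, this]
    rw [e]
    exact h1
  -- the main term
  have hmain : Real.sqrt N * ((m : ℝ) - (N - B.card) * A.card / N) ≤
      pair g h (fun X Y => χ X Y * bB Y) := by
    have e1 : pair g h (fun X Y => χ X Y * bB Y) =
        Real.sqrt N * ∑ k, ∑ Y, bB Y * (h k Y * h k Y) := by
      unfold pair
      rw [Finset.mul_sum]
      refine Finset.sum_congr rfl fun k _ => ?_
      rw [Finset.sum_comm, Finset.mul_sum]
      refine Finset.sum_congr rfl fun Y _ => ?_
      have e : ∀ X, g k X * (χ X Y * bB Y) * h k Y = (g k X * χ X Y) * (bB Y * h k Y) := by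
        intro X
        ring
      simp only [e]
      rw [← Finset.sum_mul, hdual]
      ring
    rw [e1]
    refine mul_le_mul_of_nonneg_left ?_ (Real.sqrt_nonneg _)
    have e2 : ∑ k, ∑ Y, bB Y * (h k Y * h k Y) =
        (m : ℝ) - ∑ Y ∈ univ \ B, ∑ k, h k Y * h k Y := by
      have e3 : ∑ k, ∑ Y, h k Y * h k Y = (m : ℝ) := by
        have : ∀ k, ∑ Y, h k Y * h k Y = 1 := by
          intro k
          have := hhO k k
          rwa [if_pos rfl] at this
        simp only [this]
        simp
      rw [← e3, Finset.sum_comm (s := univ \ B), ← Finset.sum_sub_distrib]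
      refine Finset.sum_congr rfl fun k _ => ?_
      rw [← Finset.sum_sdiff (Finset.subset_univ B) (f := fun Y => h k Y * h k Y), add_sub_cancel_left,
        ← Finset.sum_subset (Finset.subset_univ B)]
      · refine Finset.sum_congr rfl fun Y hY => ?_
        rw [hbB]
        simp [hY]
      · intro Y _ hY
        rw [hbB]
        simp [hY]
    rw [e2]
    have e4 : ∀ Y, ∑ k, h k Y * h k Y ≤ (A.card : ℝ) / N := by
      intro Y
      have h1 := bessel hg (fun X => if X ∈ A then χ X Y else 0)
      have h2 : ∑ X, (if X ∈ A then χ X Y else 0) ^ 2 = (A.card : ℝ) := by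
        have : ∀ X, (if X ∈ A then χ X Y else 0) ^ 2 = if X ∈ A then (1 : ℝ) else 0 := by
          intro X
          split_ifs
          · exact hχ1 X Y
          · norm_num
        simp only [this]
        simp
      rw [h2] at h1
      have h3 : ∀ k, (∑ X, g k X * (if X ∈ A then χ X Y else 0)) ^ 2 = N * (h k Y * h k Y) := by
        intro k
        have : ∑ X, g k X * (if X ∈ A then χ X Y else 0) = Real.sqrt N * h k Y := by
          rw [← hdual]
          refine Finset.sum_congr rfl fun X _ => ?_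
          by_cases hX : X ∈ A
          · rw [if_pos hX]
          · rw [if_neg hX, hout k X hX, zero_mul, zero_mul]
        rw [this, mul_pow, pow_two, hss]
        ring
      simp only [h3] at h1
      rw [← Finset.mul_sum] at h1
      rw [le_div_iff₀ hN']
      linarith
    have e5 : ∑ Y ∈ univ \ B, ∑ k, h k Y * h k Y ≤ (N - B.card) * A.card / N := by
      refine (Finset.sum_le_sum fun Y _ => e4 Y).trans ?_
      rw [Finset.sum_const, Finset.card_sdiff_of_subset (Finset.subset_univ B), Finset.card_univ, hβ,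
        nsmul_eq_mul, Nat.cast_sub hBN]
      rw [mul_div_assoc]
    linarith
  -- evaluate
  have e1 : pair g h (fun X Y => (1 - χ X Y) / 2 * bB Y) =
      - pair g h (fun X Y => χ X Y * bB Y) / 2 := by
    have e2 : (fun X Y => (1 - χ X Y) / 2 * bB Y) =
        fun X Y => (1 / 2 : ℝ) * bB Y + (-(1 / 2) : ℝ) * (χ X Y * bB Y) := by
      funext X Y
      ring
    rw [e2, pair_add g h (fun _ Y => 1 / 2 * bB Y)
      (fun X Y => (-(1 / 2) : ℝ) * (χ X Y * bB Y)), hpc, pair_smul]
    ring
  have e3 : pair g h (fun X Y => (1 - χ X Y) / 2 * bB Y) =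
      ∑ j, c j * pair g h (fun X Y => thr (u j) (v j) X Y * bB Y) := by
    have e4 : (fun X Y => (1 - χ X Y) / 2 * bB Y) = fun X Y =>
        (∑ j, c j * (thr (u j) (v j) X Y * bB Y)) + d * bB Y := by
      funext X Y
      rw [← hF X Y, add_mul, Finset.sum_mul]
      congr 1
      refine Finset.sum_congr rfl fun j _ => ?_
      unfold thr
      ring
    rw [e4, pair_add g h (fun X Y => ∑ j, c j * (thr (u j) (v j) X Y * bB Y))
      (fun _ Y => d * bB Y), hpc, add_zero,
      pair_sum univ g h (fun j X Y => c j * (thr (u j) (v j) X Y * bB Y))]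
    refine Finset.sum_congr rfl fun j _ => ?_
    exact pair_smul g h (c j) (fun X Y => thr (u j) (v j) X Y * bB Y)
  have e5 : |∑ j, c j * pair g h (fun X Y => thr (u j) (v j) X Y * bB Y)| ≤
      n * N * ∑ j ∈ univ \ (J ∪ K), |c j| := by
    rw [← Finset.sum_sdiff (Finset.subset_univ (J ∪ K))]
    have e6 : ∑ j ∈ J ∪ K, c j * pair g h (fun X Y => thr (u j) (v j) X Y * bB Y) = 0 :=
      Finset.sum_eq_zero fun j hj => by
        rcases Finset.mem_union.1 hj with h1 | h1
        · rw [hpJ j h1, mul_zero]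
        · rw [hpK j h1, mul_zero]
    rw [e6, add_zero, Finset.mul_sum]
    refine (Finset.abs_sum_le_sum_abs _ _).trans (Finset.sum_le_sum fun j _ => ?_)
    rw [abs_mul, mul_comm]
    exact mul_le_mul_of_nonneg_right (hstair j) (abs_nonneg _)
  rw [← e3, e1] at e5
  have hsq : 0 ≤ Real.sqrt N := Real.sqrt_nonneg _
  have h7 : pair g h (fun X Y => χ X Y * bB Y) / 2 ≤ n * N * ∑ j ∈ univ \ (J ∪ K), |c j| := by
    refine le_trans ?_ e5
    rw [neg_div, abs_neg]
    exact le_abs_self _
  refine le_trans ?_ h7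
  have hmR : (N : ℝ) ≤ m + (1 + ∑ j ∈ J, ((univ.image (u j)).card : ℝ)) + (N - A.card) := by
    rw [hα, hκ] at hm
    have h8 : N ≤ m + ((1 + ∑ j ∈ J, (univ.image (u j)).card) + (N - A.card)) := hm
    have h9 : (N : ℝ) ≤ m + ((1 + ∑ j ∈ J, ((univ.image (u j)).card : ℝ)) + ((N - A.card : ℕ) : ℝ)) := by
      exact_mod_cast h8
    rw [Nat.cast_sub hAN] at h9
    linarith
  have hA' : (N : ℝ) ≤ 2 ^ K.card * A.card := by exact_mod_cast hA
  have hB' : (N : ℝ) ≤ 2 ^ K.card * B.card := by exact_mod_cast hB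
  have h10 : (N : ℝ) / 4 ^ K.card ≤ (A.card : ℝ) * B.card / N := by
    have h4 : (4 : ℝ) ^ K.card = 2 ^ K.card * 2 ^ K.card := by
      rw [← mul_pow]
      norm_num
    rw [div_le_div_iff₀ (by positivity) hN', h4]
    have h11 := mul_le_mul hA' hB' hN'.le (by positivity)
    nlinarith
  have h12 : (N : ℝ) / 4 ^ K.card - (1 + ∑ j ∈ J, ((univ.image (u j)).card : ℝ)) ≤
      (m : ℝ) - (N - B.card) * A.card / N := by
    have h13 : ((N : ℝ) - B.card) * A.card / N = A.card - (A.card : ℝ) * B.card / N := by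
      field_simp
    rw [h13]
    linarith
  have h14 := mul_le_mul_of_nonneg_left h12 hsq
  have h15 := h14.trans hmain
  linarith

end

end Pool.Agent.W2helper95.NN
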