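import Mathlib

/-!
# Sums over a staircase matrix against two orthonormal families
-/

set_option autoImplicit false

namespace Pool.Agent.W2helper95.NN

open Finset

variable {α β ι : Type} [Fintype α] [Fintype β] [Fintype ι] [DecidableEq ι]

/-- orthonormal families of real functions -/
def ONF (g : ι → α → ℝ) : Prop := ∀ k l, ∑ X, g k X * g l X = if k = l then 1 else 0

theorem bessel {g : ι → α → ℝ} (hg : ONF g) (v : α → ℝ) :
    ∑ k, (∑ X, g k X * v X) ^ 2 ≤ ∑ X, v X ^ 2 := by
  obtain ⟨c, hc⟩ : ∃ c : ι → ℝ, c = fun k => ∑ X, g k X * v X := ⟨_, rfl⟩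
  have hck : ∀ k, ∑ X, g k X * v X = c k := fun k => by rw [hc]
  simp only [hck]
  have h1 : ∑ X, v X * ∑ k, c k * g k X = ∑ k, c k ^ 2 := by
    simp only [Finset.mul_sum]
    rw [Finset.sum_comm]
    refine Finset.sum_congr rfl fun k _ => ?_
    calc ∑ X, v X * (c k * g k X) = c k * ∑ X, g k X * v X := by
          rw [Finset.mul_sum]
          refine Finset.sum_congr rfl fun X _ => ?_
          ring
      _ = c k ^ 2 := by rw [hck k]; ring
  have h2 : ∑ X, (∑ k, c k * g k X) ^ 2 = ∑ k, c k ^ 2 := by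
    have e : ∀ X, (∑ k, c k * g k X) ^ 2 = ∑ k, ∑ l, c k * c l * (g k X * g l X) := by
      intro X
      rw [pow_two, Finset.sum_mul_sum]
      refine Finset.sum_congr rfl fun k _ => Finset.sum_congr rfl fun l _ => ?_
      ring
    simp only [e]
    rw [Finset.sum_comm]
    refine Finset.sum_congr rfl fun k _ => ?_
    rw [Finset.sum_comm]
    have e2 : ∀ l, ∑ X, c k * c l * (g k X * g l X) = if k = l then c k * c l else 0 := by
      intro l
      rw [← Finset.mul_sum, hg k l]
      split_ifs <;> simp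
    simp only [e2]
    rw [Finset.sum_ite_eq]
    simp [pow_two]
  have h3 : 0 ≤ ∑ X, (v X - ∑ k, c k * g k X) ^ 2 := Finset.sum_nonneg fun X _ => sq_nonneg _
  have h4 : ∑ X, (v X - ∑ k, c k * g k X) ^ 2 =
      ∑ X, v X ^ 2 - 2 * ∑ X, v X * ∑ k, c k * g k X + ∑ X, (∑ k, c k * g k X) ^ 2 := by
    rw [Finset.mul_sum, ← Finset.sum_sub_distrib, ← Finset.sum_add_distrib]
    refine Finset.sum_congr rfl fun X _ => ?_
    ring
  rw [h4, h1, h2] at h3
  linarith

/-- the sum of a matrix against two families -/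
def pair (g : ι → α → ℝ) (h : ι → β → ℝ) (t : α → β → ℝ) : ℝ :=
  ∑ k, ∑ X, ∑ Y, g k X * t X Y * h k Y

theorem pair_add (g : ι → α → ℝ) (h : ι → β → ℝ) (t t' : α → β → ℝ) :
    pair g h (fun X Y => t X Y + t' X Y) = pair g h t + pair g h t' := by
  unfold pair
  simp only [← Finset.sum_add_distrib]
  refine Finset.sum_congr rfl fun k _ => Finset.sum_congr rfl fun X _ =>
    Finset.sum_congr rfl fun Y _ => ?_
  ring

theorem pair_smul (g : ι → α → ℝ) (h : ι → β → ℝ) (c : ℝ) (t : α → β → ℝ) :
    pair g h (fun X Y => c * t X Y) = c * pair g h t := by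
  unfold pair
  simp only [Finset.mul_sum]
  refine Finset.sum_congr rfl fun k _ => Finset.sum_congr rfl fun X _ =>
    Finset.sum_congr rfl fun Y _ => ?_
  ring

theorem pair_sum {κ : Type} (s : Finset κ) (g : ι → α → ℝ) (h : ι → β → ℝ)
    (t : κ → α → β → ℝ) :
    pair g h (fun X Y => ∑ j ∈ s, t j X Y) = ∑ j ∈ s, pair g h (t j) := by
  classical
  induction s using Finset.induction_on with
  | empty => simp [pair]
  | insert a s ha ih =>
    rw [Finset.sum_insert ha, ← ih, ← pair_add]
    congr 1
    funext X Y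
    rw [Finset.sum_insert ha]

theorem pair_prod (g : ι → α → ℝ) (h : ι → β → ℝ) (u : α → ℝ) (v : β → ℝ) :
    pair g h (fun X Y => u X * v Y) = ∑ k, (∑ X, g k X * u X) * (∑ Y, h k Y * v Y) := by
  unfold pair
  refine Finset.sum_congr rfl fun k _ => ?_
  rw [Finset.sum_mul_sum]
  refine Finset.sum_congr rfl fun X _ => Finset.sum_congr rfl fun Y _ => ?_
  ring

theorem abs_pair_prod {g : ι → α → ℝ} (hg : ONF g) {h : ι → β → ℝ} (hh : ONF h)
    (u : α → ℝ) (v : β → ℝ) :
    |pair g h (fun X Y => u X * v Y)| ≤ (∑ X, u X ^ 2 + ∑ Y, v Y ^ 2) / 2 := by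
  rw [pair_prod]
  refine (Finset.abs_sum_le_sum_abs _ _).trans ?_
  have h1 : ∀ k, |(∑ X, g k X * u X) * (∑ Y, h k Y * v Y)| ≤
      ((∑ X, g k X * u X) ^ 2 + (∑ Y, h k Y * v Y) ^ 2) / 2 := by
    intro k
    rw [abs_le]
    constructor <;> nlinarith [sq_nonneg ((∑ X, g k X * u X) + (∑ Y, h k Y * v Y)),
      sq_nonneg ((∑ X, g k X * u X) - (∑ Y, h k Y * v Y))]
  refine (Finset.sum_le_sum fun k _ => h1 k).trans ?_
  rw [← Finset.sum_div, Finset.sum_add_distrib]
  have h2 := bessel hg u
  have h3 := bessel hh v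
  linarith

theorem level_bound {g : ι → α → ℝ} (hg : ONF g) {h : ι → β → ℝ} (hh : ONF h)
    (a : α → ℕ) (b : β → ℕ) :
    |pair g h (fun X Y => if a X % 2 = 0 ∧ b Y = a X + 1 then 1 else 0)| ≤
      ((Fintype.card α : ℝ) + Fintype.card β) / 2 := by
  obtain ⟨M, hM⟩ : ∃ M, M = ∑ X, a X + 1 := ⟨_, rfl⟩
  have haM : ∀ X, a X < M := by
    intro X
    have := Finset.single_le_sum (f := a) (fun i _ => Nat.zero_le _) (Finset.mem_univ X)
    omega
  have e : (fun X Y => if a X % 2 = 0 ∧ b Y = a X + 1 then (1 : ℝ) else 0) =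
      fun X Y => ∑ q ∈ range M, (if a X = 2 * q then (1 : ℝ) else 0) *
        (if b Y = 2 * q + 1 then 1 else 0) := by
    funext X Y
    by_cases h1 : a X % 2 = 0 ∧ b Y = a X + 1
    · rw [if_pos h1, Finset.sum_eq_single (a X / 2)]
      · rw [if_pos (by omega), if_pos (by omega), mul_one]
      · intro q _ hq
        rw [if_neg (by omega), zero_mul]
      · intro hn
        exfalso
        apply hn
        rw [Finset.mem_range]
        have := haM X
        omega
    · rw [if_neg h1]
      symm
      refine Finset.sum_eq_zero fun q _ => ?_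
      by_cases h2 : a X = 2 * q
      · have h3 : ¬ b Y = 2 * q + 1 := fun h3 => h1 ⟨by omega, by omega⟩
        rw [if_neg h3, mul_zero]
      · rw [if_neg h2, zero_mul]
  rw [e, pair_sum]
  refine (Finset.abs_sum_le_sum_abs _ _).trans ?_
  refine (Finset.sum_le_sum fun q _ => abs_pair_prod hg hh _ _).trans ?_
  rw [← Finset.sum_div, Finset.sum_add_distrib]
  have h1 : ∑ q ∈ range M, ∑ X, (if a X = 2 * q then (1 : ℝ) else 0) ^ 2 ≤ Fintype.card α := by
    rw [Finset.sum_comm]
    calc ∑ X, ∑ q ∈ range M, (if a X = 2 * q then (1 : ℝ) else 0) ^ 2 ≤ ∑ _X : α, (1 : ℝ) := by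
          refine Finset.sum_le_sum fun X _ => ?_
          calc ∑ q ∈ range M, (if a X = 2 * q then (1 : ℝ) else 0) ^ 2 ≤
              ∑ q ∈ range M, (if a X / 2 = q then (1 : ℝ) else 0) := by
                refine Finset.sum_le_sum fun q _ => ?_
                by_cases h2 : a X = 2 * q
                · rw [if_pos h2, if_pos (by omega)]
                  norm_num
                · rw [if_neg h2]
                  split_ifs <;> norm_num
            _ ≤ 1 := by
                rw [Finset.sum_ite_eq]
                split_ifs <;> norm_num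
      _ = Fintype.card α := by simp
  have h2 : ∑ q ∈ range M, ∑ Y, (if b Y = 2 * q + 1 then (1 : ℝ) else 0) ^ 2 ≤
      Fintype.card β := by
    rw [Finset.sum_comm]
    calc ∑ Y, ∑ q ∈ range M, (if b Y = 2 * q + 1 then (1 : ℝ) else 0) ^ 2 ≤
          ∑ _Y : β, (1 : ℝ) := by
          refine Finset.sum_le_sum fun Y _ => ?_
          calc ∑ q ∈ range M, (if b Y = 2 * q + 1 then (1 : ℝ) else 0) ^ 2 ≤
              ∑ q ∈ range M, (if b Y / 2 = q then (1 : ℝ) else 0) := by
                refine Finset.sum_le_sum fun q _ => ?_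
                by_cases h2 : b Y = 2 * q + 1
                · rw [if_pos h2, if_pos (by omega)]
                  norm_num
                · rw [if_neg h2]
                  split_ifs <;> norm_num
            _ ≤ 1 := by
                rw [Finset.sum_ite_eq]
                split_ifs <;> norm_num
      _ = Fintype.card β := by simp
  linarith

theorem stair_nat {g : ι → α → ℝ} (hg : ONF g) {h : ι → β → ℝ} (hh : ONF h)
    (ρ : α → ℕ) (τ : β → ℕ) :
    ∀ n : ℕ, (∀ X, ρ X < 2 ^ n) → (∀ Y, τ Y < 2 ^ n) →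
    |pair g h (fun X Y => if ρ X < τ Y then 1 else 0)| ≤
      n * (((Fintype.card α : ℝ) + Fintype.card β) / 2) := by
  intro n
  induction n generalizing ρ τ with
  | zero =>
    intro h1 h2
    have e : (fun X Y => if ρ X < τ Y then (1 : ℝ) else 0) = fun (_ : α) (_ : β) => (0 : ℝ) := by
      funext X Y
      rw [if_neg]
      have := h2 Y
      simp at this
      omega
    rw [e]
    simp [pair]
  | succ n ih =>
    intro h1 h2
    have e : (fun X Y => if ρ X < τ Y then (1 : ℝ) else 0) = fun X Y =>
        (if ρ X / 2 < τ Y / 2 then (1 : ℝ) else 0) +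
          (if ρ X % 2 = 0 ∧ τ Y = ρ X + 1 then (1 : ℝ) else 0) := by
      funext X Y
      by_cases h3 : ρ X / 2 < τ Y / 2
      · rw [if_pos h3, if_pos (by omega), if_neg (by omega)]
        norm_num
      · rw [if_neg h3]
        by_cases h4 : ρ X < τ Y
        · rw [if_pos h4, if_pos (by omega)]
          norm_num
        · rw [if_neg h4, if_neg (by omega)]
          norm_num
    rw [e, pair_add]
    have h3 := ih (fun X => ρ X / 2) (fun Y => τ Y / 2)
      (fun X => by have := h1 X; rw [pow_succ] at this; show ρ X / 2 < 2 ^ n; omega)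
      (fun Y => by have := h2 Y; rw [pow_succ] at this; show τ Y / 2 < 2 ^ n; omega)
    have h4 := level_bound hg hh ρ τ
    refine (abs_add_le _ _).trans ?_
    push_cast
    linarith

/-- The bound for a threshold matrix. -/
theorem stair {g : ι → α → ℝ} (hg : ONF g) {h : ι → β → ℝ} (hh : ONF h)
    (u : α → ℝ) (v : β → ℝ) (n : ℕ) (hn : Fintype.card α < 2 ^ n) :
    |pair g h (fun X Y => if 0 < u X + v Y then 1 else 0)| ≤
      n * (((Fintype.card α : ℝ) + Fintype.card β) / 2) := by
  classical
  have e : (fun X Y => if 0 < u X + v Y then (1 : ℝ) else 0) = fun X Y =>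
      if (univ.filter fun X' : α => - u X' < - u X).card <
        (univ.filter fun X' : α => - u X' < v Y).card then (1 : ℝ) else 0 := by
    funext X Y
    refine if_congr ?_ rfl rfl
    constructor
    · intro h1
      refine Finset.card_lt_card ?_
      rw [Finset.ssubset_iff_of_subset]
      · exact ⟨X, by simp; linarith, by simp⟩
      · intro X' hX'
        simp only [Finset.mem_filter, Finset.mem_univ, true_and] at hX' ⊢
        linarith
    · intro h1
      by_contra h2
      refine absurd (Finset.card_le_card ?_) (not_le.2 h1)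
      intro X' hX'
      simp only [Finset.mem_filter, Finset.mem_univ, true_and] at hX' ⊢
      linarith
  rw [e]
  exact stair_nat hg hh _ _ n
    (fun X => lt_of_le_of_lt (Finset.card_le_univ _) hn)
    (fun Y => lt_of_le_of_lt (Finset.card_le_univ _) hn)

end Pool.Agent.W2helper95.NN
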